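import Pool.Agent.X145.EV.Up

/-!
Project EV: the lower bound in the law of the iterated logarithm.
-/

set_option autoImplicit false

namespace Pool.Agent.X145.EV

open MeasureTheory Filter Topology Pool.Agent.Y41.EV
open scoped ENNReal

theorem ll_eq {x : ℝ} (hx : 0 < x) (h : x ≤ Real.exp (-Real.exp 1)) :
    Real.exp 1 ≤ Real.log (1 / x) ∧ 1 ≤ Real.log (Real.log (1 / x)) ∧
      ll x = Real.log (Real.log (1 / x)) := by
  have h1 : Real.exp 1 ≤ Real.log (1 / x) := by
    rw [one_div, Real.log_inv, le_neg]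
    have := Real.log_le_log hx h
    rwa [Real.log_exp] at this
  have h2 : 1 ≤ Real.log (Real.log (1 / x)) := by
    rw [Real.le_log_iff_exp_le (lt_of_lt_of_le (Real.exp_pos _) h1)]
    exact h1
  exact ⟨h1, h2, max_eq_right h2⟩

theorem ll_growth {x X : ℝ} (hx : 0 < x) (hxX : x ≤ X) (hX : X ≤ Real.exp (-Real.exp 1)) :
    ll x ≤ ll X * (X / x) := by
  have hX0 : 0 < X := lt_of_lt_of_le hx hxX
  obtain ⟨a1, a2, a3⟩ := ll_eq hX0 hX
  obtain ⟨b1, b2, b3⟩ := ll_eq hx (hxX.trans hX)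
  obtain ⟨L, hL⟩ : ∃ L, L = Real.log (1 / X) := ⟨_, rfl⟩
  obtain ⟨z, hz⟩ : ∃ z, z = X / x := ⟨_, rfl⟩
  have hz1 : 1 ≤ z := by rw [hz, le_div_iff₀ hx]; linarith
  have he : 1 ≤ Real.exp 1 := Real.one_le_exp (by norm_num)
  have hL1 : 1 ≤ L := by rw [hL]; exact he.trans a1
  have e : Real.log (1 / x) = L + Real.log z := by
    rw [hL, hz, ← Real.log_mul (by positivity) (by positivity)]
    congr 1
    field_simp
  rw [a3, b3, ← hz, e, ← hL]
  rw [← hL] at a2
  have hlz : 0 ≤ Real.log z := Real.log_nonneg hz1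
  have h1 : Real.log (L + Real.log z) = Real.log L + Real.log (1 + Real.log z / L) := by
    rw [← Real.log_mul (by linarith) (by positivity)]
    congr 1
    field_simp
  have h2 : Real.log (1 + Real.log z / L) ≤ Real.log z := by
    have h3 : Real.log (1 + Real.log z / L) ≤ 1 + Real.log z / L - 1 :=
      Real.log_le_sub_one_of_pos (by positivity)
    have h4 : Real.log z / L ≤ Real.log z := div_le_self hlz hL1
    linarith
  have h3 : Real.log z ≤ z - 1 := Real.log_le_sub_one_of_pos (by linarith)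
  rw [h1]
  nlinarith

theorem phi_mono {x X : ℝ} (hx : 0 ≤ x) (hxX : x ≤ X) (hX : X ≤ Real.exp (-Real.exp 1)) :
    phi x ≤ phi X := by
  rcases hx.eq_or_lt with h0 | h0
  · rw [← h0]
    unfold phi
    rw [Real.zero_rpow (by norm_num), zero_mul]
    have h1 : 0 ≤ X := hx.trans hxX
    have := ll_pos X
    positivity
  have hX0 : 0 < X := lt_of_lt_of_le h0 hxX
  have h1 := ll_growth h0 hxX hX
  have h2 := ll_pos x
  have h3 := ll_pos X
  unfold phi
  calc x ^ (4/7 : ℝ) * ll x ^ (3/7 : ℝ) ≤ x ^ (4/7 : ℝ) * (ll X * (X / x)) ^ (3/7 : ℝ) := by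
        gcongr
    _ = x ^ (1/7 : ℝ) * (X ^ (3/7 : ℝ) * ll X ^ (3/7 : ℝ)) := by
        rw [Real.mul_rpow h3.le (by positivity), Real.div_rpow hX0.le h0.le]
        have e : x ^ (4/7 : ℝ) = x ^ (1/7 : ℝ) * x ^ (3/7 : ℝ) := by
          rw [← Real.rpow_add h0]; norm_num
        rw [e]
        have : x ^ (3/7 : ℝ) ≠ 0 := (Real.rpow_pos_of_pos h0 _).ne'
        field_simp
    _ ≤ X ^ (1/7 : ℝ) * (X ^ (3/7 : ℝ) * ll X ^ (3/7 : ℝ)) := by
        gcongr
    _ = _ := by
        rw [← mul_assoc, ← Real.rpow_add hX0]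
        norm_num

/-- For small `x`, `phi x ≤ √x`. -/
theorem phi_small : ∃ x0 : ℝ, 0 < x0 ∧ x0 ≤ Real.exp (-Real.exp 2) ∧
    ∀ x : ℝ, 0 < x → x ≤ x0 → phi x ≤ x ^ (1/2 : ℝ) := by
  refine ⟨Real.exp (-Real.exp 10), Real.exp_pos _, ?_, ?_⟩
  · refine Real.exp_le_exp.mpr (neg_le_neg (Real.exp_le_exp.mpr (by norm_num)))
  intro x hx hx2
  have hx3 : x ≤ Real.exp (-Real.exp 1) := hx2.trans (Real.exp_le_exp.mpr
    (neg_le_neg (Real.exp_le_exp.mpr (by norm_num))))
  obtain ⟨a1, a2, a3⟩ := ll_eq hx hx3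
  obtain ⟨L, hL⟩ : ∃ L, L = Real.log (1 / x) := ⟨_, rfl⟩
  have hL2 : Real.exp 10 ≤ L := by
    rw [hL, one_div, Real.log_inv, le_neg]
    have := Real.log_le_log hx hx2
    rwa [Real.log_exp] at this
  have ex : x = Real.exp (-L) := by rw [hL, one_div, Real.log_inv, neg_neg, Real.exp_log hx]
  rw [← hL] at a3
  have hL3 : 100 ≤ L := by
    have h1 : (2:ℝ) ≤ Real.exp 1 := by
      have := Real.add_one_le_exp (1:ℝ)
      linarith
    have h2 : Real.exp 10 = Real.exp 1 ^ 10 := by rw [← Real.exp_nat_mul]; norm_num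
    have h3 : (2:ℝ) ^ 10 ≤ Real.exp 1 ^ 10 := pow_le_pow_left₀ (by norm_num) h1 10
    rw [h2] at hL2
    linarith
  have hlog : 0 < Real.log L := Real.log_pos (by linarith)
  -- `(log L) ^ (3/7) ≤ exp (L / 14)`
  have h1 : Real.log L ^ (3/7 : ℝ) ≤ Real.exp (L / 14) := by
    have h2 : Real.log L ≤ 2 * Real.log (1 + L / 14) + 2 := by
      have h3 : L ≤ Real.exp 2 * (1 + L / 14) ^ 2 := by
        have h4 : (1:ℝ) ≤ Real.exp 2 := Real.one_le_exp (by norm_num)
        have h5 : (5:ℝ) ≤ Real.exp 2 := by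
          have h6 : Real.exp 2 = Real.exp 1 ^ 2 := by rw [← Real.exp_nat_mul]; norm_num
          have := Real.exp_one_gt_d9
          rw [h6]; nlinarith
        have h6 : 0 ≤ (1 + L / 14) ^ 2 := by positivity
        nlinarith
      have h4 := Real.log_le_log (by linarith : 0 < L) h3
      rw [Real.log_mul (Real.exp_pos _).ne' (by positivity), Real.log_exp, Real.log_pow] at h4
      push_cast at h4
      linarith
    have h3 : Real.log (1 + L / 14) ≤ L / 14 := by
      have := Real.log_le_sub_one_of_pos (show 0 < 1 + L / 14 by positivity)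
      linarith
    have h4 : Real.log L ≤ Real.exp (L / 14) := by
      have h5 := Real.quadratic_le_exp_of_nonneg (show 0 ≤ L / 14 by positivity)
      nlinarith
    have h5 : 1 ≤ Real.exp (L / 14) := Real.one_le_exp (by positivity)
    calc Real.log L ^ (3/7 : ℝ) ≤ Real.exp (L / 14) ^ (3/7 : ℝ) :=
          Real.rpow_le_rpow hlog.le h4 (by norm_num)
      _ ≤ Real.exp (L / 14) ^ (1 : ℝ) := Real.rpow_le_rpow_of_exponent_le h5 (by norm_num)
      _ = _ := Real.rpow_one _
  unfold phi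
  rw [a3, ex, ← Real.exp_mul, ← Real.exp_mul]
  calc Real.exp (-L * (4/7)) * Real.log L ^ (3/7 : ℝ) ≤ Real.exp (-L * (4/7)) * Real.exp (L / 14) := by
        gcongr
    _ = Real.exp (-L * (1/2)) := by rw [← Real.exp_add]; congr 1; ring

/-- `psi (2 c φ(x))` is small compared with `x`. -/
theorem psi_phi : ∃ x0 : ℝ, 0 < x0 ∧ x0 ≤ Real.exp (-Real.exp 2) ∧ ∀ c x d : ℝ, 0 < c →
    c ≤ 1/2 → 0 ≤ x → x ≤ x0 → 0 ≤ d → d ≤ 2 * (c * phi x) → psi d ≤ 8 * c ^ (7/4 : ℝ) * x := by
  obtain ⟨x0, hx0, hx0e, hph⟩ := phi_small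
  refine ⟨x0, hx0, hx0e, ?_⟩
  intro c x d hc hc2 hx hxx hd hdc
  rcases hx.eq_or_lt with h0 | h0
  · rw [← h0] at hdc
    have : phi 0 = 0 := by
      unfold phi
      rw [Real.zero_rpow (by norm_num), zero_mul]
    rw [this, mul_zero, mul_zero] at hdc
    have hd0 : d = 0 := le_antisymm hdc hd
    rw [hd0, psi_zero, ← h0, mul_zero]
  have hlx := ll_pos x
  have hphi0 : 0 < phi x := by unfold phi; positivity
  obtain ⟨y, hy⟩ : ∃ y, y = 2 * (c * phi x) := ⟨_, rfl⟩
  have hy0 : 0 < y := by rw [hy]; positivity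
  have hyphi : y ≤ phi x := by rw [hy]; nlinarith
  have hyx : y ≤ x ^ (1/2 : ℝ) := hyphi.trans (hph x h0 hxx)
  have hxe : x ≤ Real.exp (-Real.exp 2) := hxx.trans hx0e
  have hxe1 : x ≤ Real.exp (-Real.exp 1) := hxe.trans (Real.exp_le_exp.mpr
    (neg_le_neg (Real.exp_le_exp.mpr (by norm_num))))
  obtain ⟨a1, a2, a3⟩ := ll_eq h0 hxe1
  have hL : Real.exp 2 ≤ Real.log (1 / x) := by
    rw [one_div, Real.log_inv, le_neg]
    have := Real.log_le_log h0 hxe
    rwa [Real.log_exp] at this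
  have hx1 : x ≤ 1 := hxe1.trans (Real.exp_le_one_iff.mpr (by have := Real.exp_pos 1; linarith))
  have hy1 : y ≤ 1 := hyx.trans (Real.rpow_le_one hx hx1 (by norm_num))
  -- `ll y ≥ ll x / 2`
  have hll : ll x / 2 ≤ ll y := by
    have h1 : Real.log (1 / x) / 2 ≤ Real.log (1 / y) := by
      have h2 := Real.log_le_log hy0 hyx
      rw [Real.log_rpow h0] at h2
      rw [one_div, one_div, Real.log_inv, Real.log_inv]
      linarith
    have hLpos : 0 < Real.log (1 / x) / 2 := by
      have := Real.exp_pos 2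
      linarith
    have h2 := Real.log_le_log hLpos h1
    have h3 : Real.log (Real.log (1 / x)) / 2 ≤ Real.log (Real.log (1 / x) / 2) := by
      obtain ⟨Lx, hLx⟩ : ∃ Lx, Lx = Real.log (1 / x) := ⟨_, rfl⟩
      rw [← hLx] at hLpos hL ⊢
      have hLx0 : 0 < Lx := by linarith
      rw [Real.log_div hLx0.ne' (by norm_num)]
      have h4 : 2 ≤ Real.log Lx := by
        rw [Real.le_log_iff_exp_le hLx0]
        exact hL
      have := Real.log_two_lt_d9
      linarith
    rw [a3]
    exact (h3.trans h2).trans (le_max_right _ _)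
  have hly := ll_pos y
  have h1 : psi d ≤ psi y := psi_mono hd (by rw [hy]; exact hdc) hy1
  refine h1.trans ?_
  unfold psi
  rw [div_le_iff₀ (by positivity)]
  have e1 : y ^ (7/4 : ℝ) = 2 ^ (7/4 : ℝ) * (c ^ (7/4 : ℝ) * (x * ll x ^ (3/4 : ℝ))) := by
    rw [hy, Real.mul_rpow (by norm_num) (by positivity), Real.mul_rpow hc.le hphi0.le]
    congr 2
    unfold phi
    rw [Real.mul_rpow (by positivity) (by positivity), ← Real.rpow_mul hx, ← Real.rpow_mul hlx.le]
    norm_num
  have h2 : ll x ^ (3/4 : ℝ) ≤ 2 ^ (3/4 : ℝ) * ll y ^ (3/4 : ℝ) := by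
    rw [← Real.mul_rpow (by norm_num) hly.le]
    exact Real.rpow_le_rpow hlx.le (by linarith) (by norm_num)
  have h3 : (2:ℝ) ^ (7/4 : ℝ) * 2 ^ (3/4 : ℝ) ≤ 8 := by
    rw [← Real.rpow_add (by norm_num)]
    calc (2:ℝ) ^ (7/4 + 3/4 : ℝ) ≤ 2 ^ (3 : ℝ) :=
          Real.rpow_le_rpow_of_exponent_le (by norm_num) (by norm_num)
      _ = 8 := by norm_num
  rw [e1]
  calc 2 ^ (7/4 : ℝ) * (c ^ (7/4 : ℝ) * (x * ll x ^ (3/4 : ℝ)))
      ≤ 2 ^ (7/4 : ℝ) * (c ^ (7/4 : ℝ) * (x * (2 ^ (3/4 : ℝ) * ll y ^ (3/4 : ℝ)))) := by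
        gcongr
    _ = ((2:ℝ) ^ (7/4 : ℝ) * 2 ^ (3/4 : ℝ)) * (c ^ (7/4 : ℝ) * x * ll y ^ (3/4 : ℝ)) := by ring
    _ ≤ 8 * (c ^ (7/4 : ℝ) * x * ll y ^ (3/4 : ℝ)) := by gcongr
    _ = _ := by ring

theorem vol_val' (V : Set unitInterval) : volume (Subtype.val '' V : Set ℝ) = volume V := by
  have h : MeasurableEmbedding (Subtype.val : unitInterval → ℝ) :=
    MeasurableEmbedding.subtype_coe measurableSet_Icc
  have := h.comap_apply volume V
  exact this.symm

/-- An interval in which a set of positive outer measure has density close to one. -/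
theorem dense_int {A : Set unitInterval} (hA : volume A ≠ 0) {e : ℝ} (he : 0 < e) (he1 : e < 1) :
    ∃ s t : unitInterval, s < t ∧ ENNReal.ofReal ((1 - e) * ((t : ℝ) - s)) ≤
      volume (A ∩ Set.Icc s t) := by
  obtain ⟨B, hB⟩ : ∃ B : Set ℝ, B = Subtype.val '' A := ⟨_, rfl⟩
  have hB0 : volume B ≠ 0 := by rw [hB, vol_val']; exact hA
  have hden := IsUnifLocDoublingMeasure.ae_tendsto_measure_inter_div (volume : Measure ℝ) B 1
  have hne : (ae ((volume : Measure ℝ).restrict B)).NeBot := by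
    rw [ae_neBot]
    intro h
    rw [Measure.restrict_eq_zero] at h
    exact hB0 h
  obtain ⟨x, hx⟩ := hden.exists
  have h1 := hx (fun _ : ℕ => x) (fun n : ℕ => 1 / ((n : ℝ) + 1)) (by
    refine tendsto_nhdsWithin_iff.2 ⟨tendsto_one_div_add_atTop_nhds_zero_nat, ?_⟩
    exact Eventually.of_forall fun n => by
      show (0:ℝ) < 1 / ((n : ℝ) + 1)
      positivity)
    (Eventually.of_forall fun n => by
      refine Metric.mem_closedBall_self ?_
      positivity)
  have h2 : ∀ᶠ n : ℕ in atTop, ENNReal.ofReal (1 - e) <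
      volume (B ∩ Metric.closedBall x (1 / ((n : ℝ) + 1))) /
        volume (Metric.closedBall x (1 / ((n : ℝ) + 1))) := by
    refine h1.eventually (lt_mem_nhds ?_)
    rw [← ENNReal.ofReal_one]
    exact (ENNReal.ofReal_lt_ofReal_iff one_pos).2 (by linarith)
  obtain ⟨n, hn⟩ := h2.exists
  obtain ⟨r, hr⟩ : ∃ r : ℝ, r = 1 / ((n : ℝ) + 1) := ⟨_, rfl⟩
  have hr0 : 0 < r := by rw [hr]; positivity
  rw [← hr] at hn
  rw [Real.volume_closedBall] at hn
  have hr2 : ENNReal.ofReal (2 * r) ≠ 0 := by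
    rw [Ne, ENNReal.ofReal_eq_zero]; linarith
  have h3 : ENNReal.ofReal ((1 - e) * (2 * r)) ≤ volume (B ∩ Metric.closedBall x r) := by
    rw [ENNReal.ofReal_mul (by linarith)]
    have := (ENNReal.le_div_iff_mul_le (Or.inl hr2) (Or.inl ENNReal.ofReal_ne_top)).1 hn.le
    exact this
  have hpos : 0 < volume (B ∩ Metric.closedBall x r) := by
    refine lt_of_lt_of_le ?_ h3
    rw [ENNReal.ofReal_pos]
    have : 0 < 1 - e := by linarith
    positivity
  obtain ⟨y, hy1, hy2⟩ := nonempty_of_measure_ne_zero hpos.ne'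
  rw [hB] at hy1
  obtain ⟨y', -, hyy⟩ := hy1
  have hy01 := y'.2
  rw [hyy] at hy01
  rw [Real.closedBall_eq_Icc] at hy2
  -- the interval
  have ha : 0 ≤ max (x - r) 0 := le_max_right _ _
  have hab : max (x - r) 0 ≤ min (x + r) 1 :=
    (max_le hy2.1 hy01.1).trans (le_min hy2.2 hy01.2)
  have hb : min (x + r) 1 ≤ 1 := min_le_right _ _
  obtain ⟨s, hs⟩ : ∃ s : unitInterval, s = ⟨max (x - r) 0, ha, hab.trans hb⟩ := ⟨_, rfl⟩
  obtain ⟨t, ht⟩ : ∃ t : unitInterval, t = ⟨min (x + r) 1, ha.trans hab, hb⟩ := ⟨_, rfl⟩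
  have hsv : (s : ℝ) = max (x - r) 0 := by rw [hs]
  have htv : (t : ℝ) = min (x + r) 1 := by rw [ht]
  have hsub : B ∩ Metric.closedBall x r ⊆ Subtype.val '' (A ∩ Set.Icc s t) := by
    rintro z ⟨hz1, hz2⟩
    rw [hB] at hz1
    obtain ⟨z', hz', rfl⟩ := hz1
    rw [Real.closedBall_eq_Icc] at hz2
    refine ⟨z', ⟨hz', ?_, ?_⟩, rfl⟩
    · show (s : ℝ) ≤ z'
      rw [hsv]
      exact max_le hz2.1 z'.2.1
    · show (z' : ℝ) ≤ t
      rw [htv]
      exact le_min hz2.2 z'.2.2
  have h4 : volume (B ∩ Metric.closedBall x r) ≤ volume (A ∩ Set.Icc s t) := by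
    rw [← vol_val' (A ∩ Set.Icc s t)]
    exact measure_mono hsub
  have hlen : (t : ℝ) - s ≤ 2 * r := by
    rw [hsv, htv]
    have := min_le_left (x + r) 1
    have := le_max_left (x - r) 0
    linarith
  refine ⟨s, t, ?_, ?_⟩
  · have h5 : 0 < volume (Set.Icc s t) := (hpos.trans_le h4).trans_le (measure_mono
      Set.inter_subset_right)
    rw [unitInterval.volume_Icc, ENNReal.ofReal_pos] at h5
    show (s : ℝ) < t
    linarith
  · refine (ENNReal.ofReal_le_ofReal ?_).trans (h3.trans h4)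
    exact mul_le_mul_of_nonneg_left hlen (by linarith)

theorem exists_piece {n : ℕ} {τ : ℕ → unitInterval} {s t : unitInterval}
    (h0 : τ 0 = s) (hn : τ n = t) (hst : s < t) {u : unitInterval} (hu : u ∈ Set.Icc s t) :
    ∃ i < n, τ i ≤ u ∧ u ≤ τ (i + 1) := by
  classical
  by_contra hcon
  push Not at hcon
  have key : ∀ k ≤ n, τ k ≤ u := by
    intro k
    induction k with
    | zero => intro _; rw [h0]; exact hu.1
    | succ k ih =>
      intro hk
      exact (hcon k (by omega) (ih (by omega))).le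
  have hn0 : n ≠ 0 := by
    intro h
    rw [h, h0] at hn
    exact hst.ne hn
  obtain ⟨m, rfl⟩ : ∃ m, n = m + 1 := ⟨n - 1, by omega⟩
  have := hcon m (by omega) (key m (by omega))
  rw [hn] at this
  exact absurd hu.2 (not_le.mpr this)

theorem lillow : S_LILLOW := by
  classical
  intro c C hc hC
  obtain ⟨x0, hx0, hx0e, hpp⟩ := psi_phi
  obtain ⟨c', hc'd⟩ : ∃ c', c' = min (1/2) (c / 64) := ⟨_, rfl⟩
  have hc' : 0 < c' := by rw [hc'd]; exact lt_min (by norm_num) (by positivity)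
  have hc2 : c' ≤ 1/2 := by rw [hc'd]; exact min_le_left _ _
  have hc3 : 8 * c' ^ (7/4 : ℝ) ≤ c / 8 := by
    have h1 : c' ^ (7/4 : ℝ) ≤ c' := by
      calc c' ^ (7/4 : ℝ) ≤ c' ^ (1 : ℝ) :=
            Real.rpow_le_rpow_of_exponent_ge hc' (by linarith) (by norm_num)
        _ = c' := Real.rpow_one _
    have h2 : c' ≤ c / 64 := by rw [hc'd]; exact min_le_right _ _
    linarith
  refine ⟨c', hc', ?_⟩
  intro f T hT hU hL
  obtain ⟨A, hA⟩ : ∃ A : ℕ → Set unitInterval, A = fun k : ℕ => {t : unitInterval | ∀ s : unitInterval,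
    |(s : ℝ) - t| < 1 / ((k : ℝ) + 1) → dist (f s) (f t) ≤ c' * phi (T * |(s : ℝ) - t|)} :=
    ⟨_, rfl⟩
  have hzero : ∀ k, volume (A k) = 0 := by
    intro k
    by_contra hk
    obtain ⟨e, hed⟩ : ∃ e, e = min (1/2) (c / (8 * C)) := ⟨_, rfl⟩
    have he : 0 < e := by rw [hed]; exact lt_min (by norm_num) (by positivity)
    have he1 : e < 1 := by rw [hed]; exact (min_le_left _ _).trans_lt (by norm_num)
    obtain ⟨s, t, hst, hvol⟩ := dense_int hk he he1
    have hst' : (s : ℝ) < t := hst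
    have hlen : 0 < (t : ℝ) - s := by linarith
    obtain ⟨η, hη, hUP⟩ := hU (c * T * ((t : ℝ) - s) / 8) (by positivity)
    obtain ⟨η2, hη2⟩ : ∃ η2, η2 = min η (min (1 / (2 * ((k : ℝ) + 1))) (x0 / T)) := ⟨_, rfl⟩
    have hη20 : 0 < η2 := by
      rw [hη2]; exact lt_min hη (lt_min (by positivity) (by positivity))
    obtain ⟨n, τ, k1, k2, k3, k4, k5⟩ := hL s t hst.le η2 hη20 (c * T * ((t : ℝ) - s) / 2) (by
      have : 0 < c * T * ((t : ℝ) - s) := by positivity
      linarith)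
    have hstep : ∀ i < n, (τ i : ℝ) ≤ τ (i + 1) := fun i _ => k1 (Nat.le_succ i)
    -- the pieces which meet `A k`
    obtain ⟨G, hG⟩ : ∃ G : Finset ℕ, G = (Finset.range n).filter
      (fun i => (Set.Icc (τ i) (τ (i + 1)) ∩ A k).Nonempty) := ⟨_, rfl⟩
    obtain ⟨H, hH⟩ : ∃ H : Finset ℕ, H = (Finset.range n).filter
      (fun i => ¬ (Set.Icc (τ i) (τ (i + 1)) ∩ A k).Nonempty) := ⟨_, rfl⟩
    have hsplit : ∀ g : ℕ → ℝ, ∑ i ∈ Finset.range n, g i = ∑ i ∈ G, g i + ∑ i ∈ H, g i := by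
      intro g
      rw [hG, hH, Finset.sum_filter_add_sum_filter_not]
    have htot : ∑ i ∈ Finset.range n, ((τ (i + 1) : ℝ) - τ i) = (t : ℝ) - s := by
      rw [Finset.sum_range_sub (fun i => (τ i : ℝ)), k3, k2]
    -- good pieces
    have hgood : ∑ i ∈ G, psi (dist (f (τ i)) (f (τ (i + 1)))) ≤ c * T * ((t : ℝ) - s) / 8 := by
      have h1 : ∀ i ∈ G, psi (dist (f (τ i)) (f (τ (i + 1)))) ≤
          c / 8 * (T * ((τ (i + 1) : ℝ) - τ i)) := by
        intro i hi
        rw [hG, Finset.mem_filter, Finset.mem_range] at hi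
        obtain ⟨hin, u, hu1, hu2⟩ := hi
        have hs1 := hstep i hin
        have hm := k4 i hin
        rw [hη2] at hm
        have hm1 : (τ (i + 1) : ℝ) - τ i ≤ 1 / (2 * ((k : ℝ) + 1)) :=
          hm.trans ((min_le_right _ _).trans (min_le_left _ _))
        have hm2 : (τ (i + 1) : ℝ) - τ i ≤ x0 / T :=
          hm.trans ((min_le_right _ _).trans (min_le_right _ _))
        rw [le_div_iff₀ hT] at hm2
        have hu3 : (τ i : ℝ) ≤ u := hu1.1
        have hu4 : (u : ℝ) ≤ τ (i + 1) := hu1.2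
        have hkk : 1 / (2 * ((k : ℝ) + 1)) < 1 / ((k : ℝ) + 1) := by
          refine one_div_lt_one_div_of_lt (by positivity) ?_
          have : (0:ℝ) ≤ k := Nat.cast_nonneg k
          linarith
        rw [hA] at hu2
        obtain ⟨Xx, hXx⟩ : ∃ Xx, Xx = T * ((τ (i + 1) : ℝ) - τ i) := ⟨_, rfl⟩
        have hX0 : 0 ≤ Xx := by rw [hXx]; exact mul_nonneg hT.le (by linarith)
        have hXx0 : Xx ≤ x0 := by rw [hXx]; linarith
        have hXe : Xx ≤ Real.exp (-Real.exp 1) := (hXx0.trans hx0e).trans (Real.exp_le_exp.mpr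
          (neg_le_neg (Real.exp_le_exp.mpr (by norm_num))))
        have d1 : dist (f (τ i)) (f u) ≤ c' * phi Xx := by
          refine (hu2 (τ i) ?_).trans ?_
          · rw [abs_sub_comm, abs_of_nonneg (by linarith)]; linarith
          · refine mul_le_mul_of_nonneg_left ?_ hc'.le
            refine phi_mono (by positivity) ?_ hXe
            rw [hXx, abs_sub_comm, abs_of_nonneg (by linarith)]
            exact mul_le_mul_of_nonneg_left (by linarith) hT.le
        have d2 : dist (f (τ (i + 1))) (f u) ≤ c' * phi Xx := by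
          refine (hu2 (τ (i + 1)) ?_).trans ?_
          · rw [abs_of_nonneg (by linarith)]; linarith
          · refine mul_le_mul_of_nonneg_left ?_ hc'.le
            refine phi_mono (by positivity) ?_ hXe
            rw [hXx, abs_of_nonneg (by linarith)]
            exact mul_le_mul_of_nonneg_left (by linarith) hT.le
        have d3 : dist (f (τ i)) (f (τ (i + 1))) ≤ 2 * (c' * phi Xx) := by
          have := dist_triangle_right (f (τ i)) (f (τ (i + 1))) (f u)
          linarith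
        have h2 := hpp c' Xx _ hc' hc2 hX0 hXx0 dist_nonneg d3
        rw [← hXx]
        exact h2.trans (mul_le_mul_of_nonneg_right hc3 hX0)
      have h2 : ∑ i ∈ G, c / 8 * (T * ((τ (i + 1) : ℝ) - τ i)) ≤
          ∑ i ∈ Finset.range n, c / 8 * (T * ((τ (i + 1) : ℝ) - τ i)) := by
        refine Finset.sum_le_sum_of_subset_of_nonneg (by rw [hG]; exact Finset.filter_subset _ _)
          fun i hi _ => ?_
        have := hstep i (Finset.mem_range.1 hi)
        exact mul_nonneg (by positivity) (mul_nonneg hT.le (by linarith))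
      refine (Finset.sum_le_sum h1).trans (h2.trans (le_of_eq ?_))
      rw [← Finset.mul_sum, ← Finset.mul_sum, htot]
      ring
    -- the other pieces are short
    have hcover : (1 - e) * ((t : ℝ) - s) ≤ ∑ i ∈ G, ((τ (i + 1) : ℝ) - τ i) := by
      have h1 : A k ∩ Set.Icc s t ⊆ ⋃ i ∈ G, Set.Icc (τ i) (τ (i + 1)) := by
        rintro u ⟨hu1, hu2⟩
        obtain ⟨i, hi, h3, h4⟩ := exists_piece k2 k3 hst hu2
        rw [Set.mem_iUnion₂]
        refine ⟨i, ?_, h3, h4⟩
        rw [hG, Finset.mem_filter, Finset.mem_range]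
        exact ⟨hi, u, ⟨h3, h4⟩, hu1⟩
      have h2 : volume (A k ∩ Set.Icc s t) ≤ ENNReal.ofReal (∑ i ∈ G, ((τ (i + 1) : ℝ) - τ i)) := by
        refine (measure_mono h1).trans ((measure_biUnion_finset_le G _).trans (le_of_eq ?_))
        rw [ENNReal.ofReal_sum_of_nonneg]
        · exact Finset.sum_congr rfl fun i _ => unitInterval.volume_Icc _ _
        · intro i hi
          rw [hG, Finset.mem_filter, Finset.mem_range] at hi
          have := hstep i hi.1
          linarith
      have h3 := hvol.trans h2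
      have h4 : 0 ≤ ∑ i ∈ G, ((τ (i + 1) : ℝ) - τ i) := by
        refine Finset.sum_nonneg fun i hi => ?_
        rw [hG, Finset.mem_filter, Finset.mem_range] at hi
        have := hstep i hi.1
        linarith
      exact (ENNReal.ofReal_le_ofReal_iff h4).1 h3
    have hHlen : ∑ i ∈ H, ((τ (i + 1) : ℝ) - τ i) ≤ e * ((t : ℝ) - s) := by
      have := hsplit (fun i => (τ (i + 1) : ℝ) - τ i)
      rw [htot] at this
      linarith
    have hbad : ∑ i ∈ H, psi (dist (f (τ i)) (f (τ (i + 1)))) ≤ c * T * ((t : ℝ) - s) / 4 := by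
      have h1 := hUP n τ (fun i => if i ∈ H then τ (i + 1) else τ i) (by
        intro i hi
        constructor
        · by_cases h : i ∈ H
          · simp only [if_pos h]; exact k1 (Nat.le_succ i)
          · simp only [if_neg h]; exact le_rfl
        · by_cases h : i ∈ H
          · simp only [if_pos h]
            have := k4 i hi
            rw [hη2] at this
            exact this.trans (min_le_left _ _)
          · simp only [if_neg h, sub_self]; exact hη.le) (by
        intro i j hij hj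
        have h2 : τ (i + 1) ≤ τ j := k1 hij
        by_cases h : i ∈ H
        · simp only [if_pos h]; exact h2
        · simp only [if_neg h]; exact (k1 (Nat.le_succ i)).trans h2)
      have h2 : ∑ i ∈ Finset.range n, psi (dist (f (τ i)) (f (if i ∈ H then τ (i + 1) else τ i))) =
          ∑ i ∈ H, psi (dist (f (τ i)) (f (τ (i + 1)))) := by
        have hHs : H ⊆ Finset.range n := by rw [hH]; exact Finset.filter_subset _ _
        rw [← Finset.sum_subset hHs]
        · refine Finset.sum_congr rfl fun i hi => ?_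
          rw [if_pos hi]
        · intro i _ hi
          rw [if_neg hi, dist_self, psi_zero]
      have h3 : ∑ i ∈ Finset.range n, (((if i ∈ H then τ (i + 1) else τ i : unitInterval) : ℝ) - τ i) =
          ∑ i ∈ H, ((τ (i + 1) : ℝ) - τ i) := by
        have hHs : H ⊆ Finset.range n := by rw [hH]; exact Finset.filter_subset _ _
        rw [← Finset.sum_subset hHs]
        · refine Finset.sum_congr rfl fun i hi => ?_
          rw [if_pos hi]
        · intro i _ hi
          rw [if_neg hi, sub_self]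
      rw [h2, h3] at h1
      have he2 : e ≤ c / (8 * C) := by rw [hed]; exact min_le_right _ _
      have h4 : C * T * ∑ i ∈ H, ((τ (i + 1) : ℝ) - τ i) ≤ c * T * ((t : ℝ) - s) / 8 := by
        calc C * T * ∑ i ∈ H, ((τ (i + 1) : ℝ) - τ i) ≤ C * T * (e * ((t : ℝ) - s)) :=
              mul_le_mul_of_nonneg_left hHlen (by positivity)
          _ ≤ C * T * (c / (8 * C) * ((t : ℝ) - s)) := by gcongr
          _ = _ := by field_simp
      linarith
    have h1 := hsplit (fun i => psi (dist (f (τ i)) (f (τ (i + 1)))))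
    rw [h1] at k5
    have h2 : 0 < c * T * ((t : ℝ) - s) := by positivity
    linarith
  have hall : volume (⋃ k, A k) = 0 := measure_iUnion_null hzero
  have hsub : {t : unitInterval | ¬ ∃ᶠ s : unitInterval in 𝓝 t,
      c' * phi (T * |(s : ℝ) - t|) < dist (f s) (f t)} ⊆ ⋃ k, A k := by
    intro t ht
    have ht' : ∀ᶠ s : unitInterval in 𝓝 t, ¬ c' * phi (T * |(s : ℝ) - t|) < dist (f s) (f t) :=
      not_frequently.1 ht
    obtain ⟨r, hr, h⟩ := Metric.eventually_nhds_iff.1 ht'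
    obtain ⟨k, hk⟩ := exists_nat_one_div_lt hr
    rw [Set.mem_iUnion]
    refine ⟨k, ?_⟩
    rw [hA]
    intro s hs
    refine not_lt.1 (h ?_)
    rw [Subtype.dist_eq, Real.dist_eq]
    exact hs.trans hk
  exact measure_mono_null hsub hall

end Pool.Agent.X145.EV
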