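import Pool.Agent.Y41.EV.StmD

/-!
Project EV: the scales, and the `7/4`-variation.
-/

set_option autoImplicit false

namespace Pool.Agent.X145.EV

open MeasureTheory Filter Topology Pool.Agent.Y41.EV Pool.Agent.Y995.HG

theorem kf_le {K2 : ℝ} (hK : 1 ≤ K2) {i : ℕ} (hi : 1 ≤ i) :
    14 * K2 * (kf K2 i : ℝ) ≤ Real.log i := by
  have hi' : (1:ℝ) ≤ i := by exact_mod_cast hi
  have hl : 0 ≤ Real.log i := Real.log_nonneg hi'
  have h2 : ((⌊Real.log i / (14 * K2)⌋₊ : ℕ) : ℝ) ≤ Real.log i / (14 * K2) :=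
    Nat.floor_le (by positivity)
  rw [le_div_iff₀ (by positivity)] at h2
  unfold kf
  linarith

theorem EE_pow {K2 : ℝ} (hK : 1 ≤ K2) {i : ℕ} (hi : 1 ≤ i) :
    EE K2 i ^ (7/4 : ℝ) ≤ (i : ℝ) ^ (1/4 : ℝ) := by
  have hi' : (1:ℝ) ≤ i := by exact_mod_cast hi
  unfold EE
  rw [← Real.exp_mul, Real.rpow_def_of_pos (by linarith)]
  refine Real.exp_le_exp.mpr ?_
  have := kf_le hK hi
  linarith

theorem EE_le {K2 : ℝ} (hK : 1 ≤ K2) {i : ℕ} (hi : 1 ≤ i) : EE K2 i ≤ i := by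
  have hi' : (1:ℝ) ≤ i := by exact_mod_cast hi
  have h1 := kf_le hK hi
  have h2 : 2 * (K2 * (kf K2 i : ℝ)) ≤ Real.log i := by
    have : 0 ≤ K2 * (kf K2 i : ℝ) := by positivity
    linarith
  unfold EE
  calc _ ≤ Real.exp (Real.log i) := Real.exp_le_exp.mpr h2
    _ = i := Real.exp_log (by linarith)

theorem EE_pos (K2 : ℝ) (i : ℕ) : 0 < EE K2 i := Real.exp_pos _

theorem kf_tend {K2 : ℝ} (hK : 1 ≤ K2) : Tendsto (kf K2) atTop atTop := by
  have h1 : Tendsto (fun i : ℕ => Real.log i / (14 * K2)) atTop atTop :=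
    (Real.tendsto_log_atTop.comp tendsto_natCast_atTop_atTop).atTop_div_const (by linarith)
  exact tendsto_nat_floor_atTop.comp h1

theorem two_pow_ge (i : ℕ) : (i : ℝ) + 1 ≤ 2 ^ i := by
  have : i + 1 ≤ 2 ^ i := Nat.lt_two_pow_self
  exact_mod_cast this

theorem nat_rpow_le {i : ℕ} (hi : 1 ≤ i) {a : ℝ} (ha : a ≤ 1) : (i : ℝ) ^ a ≤ i := by
  have hi' : (1:ℝ) ≤ i := by exact_mod_cast hi
  calc (i : ℝ) ^ a ≤ (i : ℝ) ^ (1 : ℝ) := Real.rpow_le_rpow_of_exponent_le hi' ha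
    _ = i := Real.rpow_one _

theorem ell_le {K2 A0 : ℝ} (hK : 1 ≤ K2) (hA : 0 < A0) {i : ℕ} (hi : 1 ≤ i) :
    ell A0 K2 i ≤ A0 * ((1/2) ^ (7 * i ^ 2) * (2 ^ i * 2 ^ i)) := by
  unfold ell
  have h1 : (ww i * EE K2 i) ^ (7/4 : ℝ) ≤ (1/2) ^ (7 * i ^ 2) * 2 ^ i := by
    rw [Real.mul_rpow (ww_pos i).le (EE_pos K2 i).le, ww_pow]
    refine mul_le_mul_of_nonneg_left ?_ (by positivity)
    have h2 := EE_pow hK hi
    have h3 := nat_rpow_le hi (show (1/4 : ℝ) ≤ 1 by norm_num)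
    have h4 := two_pow_ge i
    linarith
  have h2 : (NN i : ℝ) ≤ 2 ^ i := by
    have h3 := NN_le i
    have h4 : (0:ℝ) ≤ (NN i : ℝ) * ((Nat.sqrt i : ℕ) : ℝ) := by positivity
    linarith
  refine mul_le_mul_of_nonneg_left ?_ hA.le
  calc (ww i * EE K2 i) ^ (7/4 : ℝ) * (NN i : ℝ)
      ≤ ((1/2) ^ (7 * i ^ 2) * 2 ^ i) * 2 ^ i := by gcongr
    _ = _ := by ring

theorem ll_ww {i : ℕ} (hi : 3 ≤ i) : ll (ww i) ≤ 3 * Real.log i := by
  have hi' : (3:ℝ) ≤ i := by exact_mod_cast hi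
  have hlog : 1 ≤ Real.log i := by
    rw [Real.le_log_iff_exp_le (by linarith)]
    have := Real.exp_one_lt_d9
    linarith
  have e : Real.log (1 / ww i) = 4 * (i:ℝ) ^ 2 * Real.log 2 := by
    unfold ww
    rw [one_div, ← inv_pow, Real.log_pow]
    push_cast
    congr 2
    norm_num
  unfold ll
  refine max_le (by linarith) ?_
  rw [e]
  have hl2 := Real.log_two_lt_d9
  have hl2' := Real.log_two_gt_d9
  have h1 : 4 * (i:ℝ) ^ 2 * Real.log 2 ≤ (i:ℝ) ^ 3 := by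
    have : (i:ℝ) ^ 3 = (i:ℝ) ^ 2 * i := by ring
    rw [this]
    have : 0 ≤ (i:ℝ) ^ 2 := by positivity
    nlinarith
  calc Real.log (4 * (i:ℝ) ^ 2 * Real.log 2) ≤ Real.log ((i:ℝ) ^ 3) :=
        Real.log_le_log (by positivity) h1
    _ = 3 * Real.log i := by rw [Real.log_pow]; norm_num

theorem psi_ww {i : ℕ} (hi : 3 ≤ i) :
    (1/2 : ℝ) ^ (7 * i ^ 2) / (3 * Real.log i) ^ (3/4 : ℝ) ≤ psi (ww i) := by
  have h1 := ll_ww hi
  have h2 := ll_pos (ww i)
  unfold psi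
  rw [ww_pow]
  refine div_le_div_of_nonneg_left (by positivity) (by positivity) ?_
  exact Real.rpow_le_rpow h2.le h1 (by norm_num)

theorem sc1 : S_SC1 := by
  intro θ K2 A0 hθ hK2 hA0
  obtain ⟨c0, hc0d⟩ : ∃ c0, c0 = min (1 / (4 * (θ * (84 * K2) ^ (3/4 : ℝ)))) (1 / (24 * A0)) :=
    ⟨_, rfl⟩
  have hA00 : 0 < A0 := by linarith
  have hc0 : 0 < c0 := by rw [hc0d]; exact lt_min (by positivity) (by positivity)
  refine ⟨c0, hc0, ?_⟩
  have hlogt : Tendsto (fun i : ℕ => Real.log i) atTop atTop :=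
    Real.tendsto_log_atTop.comp tendsto_natCast_atTop_atTop
  filter_upwards [eventually_ge_atTop 3, hlogt.eventually (eventually_ge_atTop (28 * K2))]
    with i hi hlogi
  have hi' : (3:ℝ) ≤ i := by exact_mod_cast hi
  have hL : 0 < Real.log i := by linarith
  obtain ⟨W, hW⟩ : ∃ W : ℝ, W = (1/2) ^ (7 * i ^ 2) := ⟨_, rfl⟩
  have hW0 : 0 < W := by rw [hW]; positivity
  have hpsi := psi_ww hi
  rw [← hW] at hpsi
  obtain ⟨P, hP⟩ : ∃ P : ℝ, P = W / (3 * Real.log i) ^ (3/4 : ℝ) := ⟨_, rfl⟩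
  rw [← hP] at hpsi
  have hP0 : 0 < P := by rw [hP]; positivity
  -- tau
  have h1 : c0 * (2 * tau θ K2 i) ≤ P / 2 := by
    have hk : Real.log i / (28 * K2) ≤ kf K2 i := by
      have h2 : Real.log i / (14 * K2) < kf K2 i + 1 := by
        unfold kf; exact Nat.lt_floor_add_one _
      have h3 : 1 ≤ Real.log i / (28 * K2) := by
        rw [le_div_iff₀ (by positivity)]; linarith
      have e : Real.log i / (14 * K2) = 2 * (Real.log i / (28 * K2)) := by
        field_simp; ring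
      rw [e] at h2
      linarith
    have hk0 : 0 < Real.log i / (28 * K2) := by positivity
    have hkf : 0 < (kf K2 i : ℝ) := lt_of_lt_of_le hk0 hk
    have h2 : (kf K2 i : ℝ) ^ (-(3/4) : ℝ) ≤ (28 * K2) ^ (3/4 : ℝ) / Real.log i ^ (3/4 : ℝ) := by
      calc (kf K2 i : ℝ) ^ (-(3/4) : ℝ) ≤ (Real.log i / (28 * K2)) ^ (-(3/4) : ℝ) :=
            Real.rpow_le_rpow_of_nonpos hk0 hk (by norm_num)
        _ = (28 * K2) ^ (3/4 : ℝ) / Real.log i ^ (3/4 : ℝ) := by
            rw [Real.rpow_neg hk0.le, Real.div_rpow hL.le (by positivity), inv_div]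
    have h3 : c0 ≤ 1 / (4 * (θ * (84 * K2) ^ (3/4 : ℝ))) := by rw [hc0d]; exact min_le_left _ _
    unfold tau
    rw [ww_pow, ← hW]
    have e84 : (84 * K2) ^ (3/4 : ℝ) = 3 ^ (3/4 : ℝ) * (28 * K2) ^ (3/4 : ℝ) := by
      rw [← Real.mul_rpow (by norm_num) (by positivity)]
      congr 1; ring
    calc c0 * (2 * (θ * ((kf K2 i : ℝ) ^ (-(3/4) : ℝ) * W)))
        ≤ 1 / (4 * (θ * (84 * K2) ^ (3/4 : ℝ))) *
          (2 * (θ * ((28 * K2) ^ (3/4 : ℝ) / Real.log i ^ (3/4 : ℝ) * W))) := by gcongr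
      _ = P / 2 := by
          rw [hP, e84, Real.mul_rpow (by norm_num) hL.le]
          field_simp
          norm_num
  -- ell
  have h2 : c0 * (4 * ell A0 K2 (i + 1)) ≤ P / 2 := by
    have h3 := ell_le (K2 := K2) (A0 := A0) hK2 hA00 (i := i + 1) (by omega)
    have e1 : ((1:ℝ)/2) ^ (7 * (i + 1) ^ 2) * (2 ^ (i + 1) * 2 ^ (i + 1)) =
        W * ((1/2) ^ (12 * i) * (1/32)) := by
      rw [hW]
      have e2 : 7 * (i + 1) ^ 2 = 7 * i ^ 2 + (12 * i + 5 + (i + 1) + (i + 1)) := by ring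
      rw [e2, pow_add, pow_add, pow_add, pow_add]
      have e3 : ((1:ℝ)/2) ^ (i + 1) * 2 ^ (i + 1) = 1 := by
        rw [← mul_pow]; norm_num
      calc ((1:ℝ)/2) ^ (7 * i ^ 2) * ((1/2) ^ (12 * i) * (1/2) ^ 5 * (1/2) ^ (i + 1) *
            (1/2) ^ (i + 1)) * (2 ^ (i + 1) * 2 ^ (i + 1))
          = ((1:ℝ)/2) ^ (7 * i ^ 2) * ((1/2) ^ (12 * i) * (1/2) ^ 5) *
            (((1:ℝ)/2) ^ (i + 1) * 2 ^ (i + 1)) * (((1:ℝ)/2) ^ (i + 1) * 2 ^ (i + 1)) := by ring
        _ = _ := by rw [e3]; ring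
    rw [e1] at h3
    have h4 : c0 ≤ 1 / (24 * A0) := by rw [hc0d]; exact min_le_right _ _
    have h5 : (3 * Real.log i) ^ (3/4 : ℝ) ≤ 3 * 2 ^ i := by
      have h6 : 1 ≤ 3 * Real.log i := by linarith
      calc (3 * Real.log i) ^ (3/4 : ℝ) ≤ (3 * Real.log i) ^ (1 : ℝ) :=
            Real.rpow_le_rpow_of_exponent_le h6 (by norm_num)
        _ = 3 * Real.log i := Real.rpow_one _
        _ ≤ 3 * 2 ^ i := by
            have h7 : Real.log i ≤ i :=
              (Real.log_le_sub_one_of_pos (by linarith)).trans (by linarith)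
            have := two_pow_ge i
            linarith
    have h6 : ((1:ℝ)/2) ^ (12 * i) * (3 * 2 ^ i) ≤ 3 := by
      have : ((1:ℝ)/2) ^ (12 * i) ≤ (1/2) ^ i :=
        pow_le_pow_of_le_one (by norm_num) (by norm_num) (by omega)
      calc ((1:ℝ)/2) ^ (12 * i) * (3 * 2 ^ i) ≤ (1/2) ^ i * (3 * 2 ^ i) := by gcongr
        _ = 3 * (((1:ℝ)/2) ^ i * 2 ^ i) := by ring
        _ = 3 := by rw [← mul_pow]; norm_num
    have h7 : W * (1/2) ^ (12 * i) ≤ 3 * P := by
      rw [hP, ← mul_div_assoc, le_div_iff₀ (by positivity)]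
      calc W * (1/2) ^ (12 * i) * (3 * Real.log i) ^ (3/4 : ℝ)
          ≤ W * (1/2) ^ (12 * i) * (3 * 2 ^ i) := by gcongr
        _ = W * (((1:ℝ)/2) ^ (12 * i) * (3 * 2 ^ i)) := by ring
        _ ≤ W * 3 := by gcongr
        _ = _ := by ring
    calc c0 * (4 * ell A0 K2 (i + 1))
        ≤ 1 / (24 * A0) * (4 * (A0 * (W * ((1/2) ^ (12 * i) * (1/32))))) := by
          have h8 : 0 ≤ ell A0 K2 (i + 1) := by
            have := ww_pos (i + 1)
            have := EE_pos K2 (i + 1)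
            unfold ell; positivity
          gcongr
      _ = (W * (1/2) ^ (12 * i)) / 192 := by field_simp; ring
      _ ≤ (3 * P) / 192 := by gcongr
      _ ≤ P / 2 := by linarith
  calc c0 * (2 * tau θ K2 i + 4 * ell A0 K2 (i + 1)) =
        c0 * (2 * tau θ K2 i) + c0 * (4 * ell A0 K2 (i + 1)) := by ring
    _ ≤ P := by linarith
    _ ≤ _ := hpsi

theorem aa_nonneg {A0 : ℝ} (hA : 0 < A0) (K2 : ℝ) (i : ℕ) : 0 ≤ aa A0 K2 i := by
  have := psi_nonneg (ww_pos i).le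
  have h2 : 0 ≤ ell A0 K2 i := by
    have := ww_pos i
    have := EE_pos K2 i
    unfold ell; positivity
  unfold aa
  positivity

theorem aa_ge {K2 A0 : ℝ} (hK : 1 ≤ K2) (hA : 0 < A0) {i : ℕ} (hi : 20 ≤ i) :
    1 / (12 * A0) * (1 / (i : ℝ)) ≤ aa A0 K2 i := by
  have hi' : (20:ℝ) ≤ i := by exact_mod_cast hi
  have hN : (0:ℝ) < NN i := by
    have h1 := NN_big hi
    have : 0 < NN i := by omega
    exact_mod_cast this
  have hL : 1 ≤ Real.log i := by
    rw [Real.le_log_iff_exp_le (by linarith)]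
    have := Real.exp_one_lt_d9
    linarith
  have hp := psi_ww (i := i) (by omega)
  have hw := ww_pos i
  have hE := EE_pos K2 i
  have hE2 := EE_pow hK (i := i) (by omega)
  unfold aa ell
  rw [Real.mul_rpow hw.le hE.le, ww_pow]
  have h1 : (3 * Real.log i) ^ (3/4 : ℝ) ≤ 3 * (i : ℝ) ^ (3/4 : ℝ) := by
    rw [Real.mul_rpow (by norm_num) (by linarith)]
    have h2 : (3:ℝ) ^ (3/4 : ℝ) ≤ 3 := by
      calc (3:ℝ) ^ (3/4 : ℝ) ≤ 3 ^ (1:ℝ) :=
            Real.rpow_le_rpow_of_exponent_le (by norm_num) (by norm_num)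
        _ = 3 := Real.rpow_one _
    have h3 : Real.log i ≤ i := (Real.log_le_sub_one_of_pos (by linarith)).trans (by linarith)
    have h4 : Real.log i ^ (3/4 : ℝ) ≤ (i : ℝ) ^ (3/4 : ℝ) :=
      Real.rpow_le_rpow (by linarith) h3 (by norm_num)
    gcongr
  have h2 : (i : ℝ) ^ (3/4 : ℝ) * (i : ℝ) ^ (1/4 : ℝ) = i := by
    rw [← Real.rpow_add (by linarith)]
    norm_num
  have h3 : (3 * Real.log i) ^ (3/4 : ℝ) * EE K2 i ^ (7/4 : ℝ) ≤ 3 * i := by
    calc _ ≤ (3 * (i : ℝ) ^ (3/4 : ℝ)) * (i : ℝ) ^ (1/4 : ℝ) := by gcongr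
      _ = 3 * i := by rw [mul_assoc, h2]
  obtain ⟨W, hW⟩ : ∃ W : ℝ, W = (1/2) ^ (7 * i ^ 2) := ⟨_, rfl⟩
  have hW0 : 0 < W := by rw [hW]; positivity
  rw [← hW] at hp ⊢
  obtain ⟨Q, hQ⟩ : ∃ Q : ℝ, Q = (3 * Real.log i) ^ (3/4 : ℝ) := ⟨_, rfl⟩
  have hQ0 : 0 < Q := by rw [hQ]; positivity
  obtain ⟨G, hG⟩ : ∃ G : ℝ, G = EE K2 i ^ (7/4 : ℝ) := ⟨_, rfl⟩
  have hG0 : 0 < G := by rw [hG]; positivity
  rw [← hQ, ← hG] at h3
  rw [← hQ] at hp
  rw [← hG]
  have hi0 : (0:ℝ) < i := by linarith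
  calc 1 / (12 * A0) * (1 / (i : ℝ)) = 1 / (4 * A0 * (3 * i)) := by field_simp; norm_num
    _ ≤ 1 / (4 * A0 * (Q * G)) := by gcongr
    _ = (NN i : ℝ) * (W / Q) / (4 * (A0 * (W * G * (NN i : ℝ)))) := by field_simp
    _ ≤ (NN i : ℝ) * psi (ww i) / (4 * (A0 * (W * G * (NN i : ℝ)))) := by gcongr

theorem sc2 : S_SC2 := by
  intro K2 A0 hK2 hA0 i0
  have hA00 : 0 < A0 := by linarith
  have h1 : Tendsto (fun m : ℕ => ∑ j ∈ Finset.range m, aa A0 K2 (i0 + j)) atTop atTop := by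
    rw [← not_summable_iff_tendsto_nat_atTop_of_nonneg (fun j => aa_nonneg hA00 K2 (i0 + j))]
    intro hs
    have h2 : Summable (fun j : ℕ => aa A0 K2 j) := by
      have h3 : Summable (fun j : ℕ => aa A0 K2 (j + i0)) := by
        simpa only [add_comm] using hs
      exact (summable_nat_add_iff i0).1 h3
    have h3 : Summable (fun j : ℕ => 1 / (12 * A0) * (1 / ((j + 20 : ℕ) : ℝ))) := by
      refine Summable.of_nonneg_of_le (fun j => by positivity) (fun j => ?_)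
        ((summable_nat_add_iff 20).2 h2)
      exact aa_ge hK2 hA00 (by omega)
    have h4 : Summable (fun j : ℕ => 1 / ((j + 20 : ℕ) : ℝ)) := by
      have := h3.mul_left (12 * A0)
      refine this.congr fun j => ?_
      field_simp
    have h5 := (summable_nat_add_iff (f := fun j : ℕ => 1 / (j : ℝ)) 20).1 h4
    exact Real.not_summable_one_div_natCast h5
  refine h1.congr fun m => ?_
  rw [Finset.sum_Ico_eq_sum_range]
  simp

theorem sc3 : S_SC3 := by
  intro θ K2 A0 hθ hK2 hA0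
  have hA00 : 0 < A0 := by linarith
  have hgeo : Tendsto (fun i : ℕ => ((1:ℝ)/2) ^ i) atTop (𝓝 0) :=
    tendsto_pow_atTop_nhds_zero_of_lt_one (by norm_num) (by norm_num)
  have hsq : ∀ i : ℕ, i ≤ i ^ 2 := fun i => Nat.le_self_pow (by norm_num) i
  have hE : ∀ i, 0 < EE K2 i := EE_pos K2
  refine ⟨?_, ?_, kf_tend hK2, ?_, ?_, ?_⟩
  · have h1 := hgeo.const_mul A0
    rw [mul_zero] at h1
    refine squeeze_zero' (Eventually.of_forall fun i => ?_) ?_ h1
    · have := ww_pos i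
      have := hE i
      unfold ell; positivity
    · filter_upwards [eventually_ge_atTop 1] with i hi
      refine (ell_le hK2 hA00 hi).trans ?_
      refine mul_le_mul_of_nonneg_left ?_ hA00.le
      have h2 : ((1:ℝ)/2) ^ (7 * i ^ 2) ≤ (1/2) ^ (i + i + i) :=
        pow_le_pow_of_le_one (by norm_num) (by norm_num) (by have := hsq i; omega)
      calc ((1:ℝ)/2) ^ (7 * i ^ 2) * (2 ^ i * 2 ^ i) ≤ (1/2) ^ (i + i + i) * (2 ^ i * 2 ^ i) := by
            gcongr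
        _ = (1/2) ^ i * ((((1:ℝ)/2) ^ i * 2 ^ i) * (((1:ℝ)/2) ^ i * 2 ^ i)) := by
            rw [pow_add, pow_add]; ring
        _ = _ := by rw [← mul_pow]; norm_num
  · have h1 := hgeo.const_mul θ
    rw [mul_zero] at h1
    refine squeeze_zero' (Eventually.of_forall fun i => ?_) ?_ h1
    · have := ww_pos i
      unfold tau; positivity
    · refine Eventually.of_forall fun i => ?_
      unfold tau
      rw [ww_pow]
      refine mul_le_mul_of_nonneg_left ?_ hθ.le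
      have h2 : ((1:ℝ)/2) ^ (7 * i ^ 2) ≤ (1/2) ^ i :=
        pow_le_pow_of_le_one (by norm_num) (by norm_num) (by have := hsq i; omega)
      have h3 : (kf K2 i : ℝ) ^ (-(3/4) : ℝ) ≤ 1 := by
        rcases Nat.eq_zero_or_pos (kf K2 i) with h | h
        · rw [h, Nat.cast_zero, Real.zero_rpow (by norm_num)]
          norm_num
        · exact Real.rpow_le_one_of_one_le_of_nonpos (by exact_mod_cast h) (by norm_num)
      calc (kf K2 i : ℝ) ^ (-(3/4) : ℝ) * (1/2) ^ (7 * i ^ 2) ≤ 1 * (1/2) ^ i := by gcongr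
        _ = _ := one_mul _
  · intro i
    have := ww_pos i
    unfold tau; positivity
  · filter_upwards [eventually_ge_atTop 20] with i hi
    have hN : (0:ℝ) < NN i := by
      have h1 := NN_big hi
      have : 0 < NN i := by omega
      exact_mod_cast this
    have := ww_pos i
    have := hE i
    unfold ell; positivity
  · intro ρ hρ
    have h1 := hgeo.const_mul A0
    rw [mul_zero] at h1
    filter_upwards [h1.eventually (gt_mem_nhds hρ), eventually_ge_atTop 1] with i hi hi1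
    refine le_trans ?_ hi.le
    refine mul_le_mul_of_nonneg_left ?_ hA00.le
    have h2 := EE_le hK2 hi1
    have h3 := two_pow_ge i
    have h4 : ww i ≤ (1/2) ^ (i + i) := by
      unfold ww
      exact pow_le_pow_of_le_one (by norm_num) (by norm_num) (by have := hsq i; omega)
    calc ww i * EE K2 i ≤ (1/2) ^ (i + i) * 2 ^ i := by
          have := (hE i).le
          have := ww_pos i
          gcongr
          linarith
      _ = (1/2) ^ i * (((1:ℝ)/2) ^ i * 2 ^ i) := by rw [pow_add]; ring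
      _ = _ := by rw [← mul_pow]; norm_num

theorem p74 : S_P74 := by
  intro f T c hT hc hL s t hst η M hη
  have hst' : (s : ℝ) < t := hst
  obtain ⟨x0, hx0⟩ : ∃ x0, x0 = c * T * ((t : ℝ) - s) / 2 := ⟨_, rfl⟩
  have hx00 : 0 < x0 := by
    rw [hx0]
    have : 0 < (t : ℝ) - s := by linarith
    positivity
  obtain ⟨L, hLd⟩ : ∃ L, L = 1 + (|M| / x0) ^ (2 : ℕ) := ⟨_, rfl⟩
  have hL1 : 1 ≤ L := by rw [hLd]; have : 0 ≤ (|M| / x0) ^ (2 : ℕ) := by positivity
                         linarith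
  have hLM : M ≤ L ^ (3/4 : ℝ) * x0 := by
    have h1 : |M| / x0 ≤ L ^ (3/4 : ℝ) := by
      calc |M| / x0 = ((|M| / x0) ^ (2 : ℕ)) ^ (1/2 : ℝ) := by
            rw [← Real.rpow_natCast, ← Real.rpow_mul (by positivity)]; norm_num
        _ ≤ L ^ (1/2 : ℝ) := Real.rpow_le_rpow (by positivity) (by rw [hLd]; linarith) (by norm_num)
        _ ≤ L ^ (3/4 : ℝ) := Real.rpow_le_rpow_of_exponent_le hL1 (by norm_num)
    rw [div_le_iff₀ hx00] at h1
    exact (le_abs_self M).trans h1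
  obtain ⟨r0, hr0⟩ : ∃ r0, r0 = Real.exp (-Real.exp L) := ⟨_, rfl⟩
  have hr00 : 0 < r0 := by rw [hr0]; exact Real.exp_pos _
  obtain ⟨η1, hη1, hmod⟩ : ∃ η1 : ℝ, 0 < η1 ∧ ∀ u v : unitInterval, |(u : ℝ) - v| ≤ η1 →
      dist (f u) (f v) ≤ r0 := by
    have hu := CompactSpace.uniformContinuous_of_continuous f.continuous
    rw [Metric.uniformContinuous_iff] at hu
    obtain ⟨δ, hδ, h⟩ := hu r0 hr00
    refine ⟨δ / 2, by positivity, fun u v huv => (h ?_).le⟩
    rw [Subtype.dist_eq, Real.dist_eq]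
    linarith
  obtain ⟨n, τ, k1, k2, k3, k4, k5⟩ := hL s t hst.le (min η η1) (lt_min hη hη1) x0 (by
    rw [hx0]
    have : 0 < c * T * ((t : ℝ) - s) := by
      have : 0 < (t : ℝ) - s := by linarith
      positivity
    linarith)
  refine ⟨n, τ, k1, k2, k3, fun i hi => (k4 i hi).trans (min_le_left _ _), ?_⟩
  have h1 : ∀ i ∈ Finset.range n, psi (dist (f (τ i)) (f (τ (i + 1)))) ≤
      dist (f (τ i)) (f (τ (i + 1))) ^ (7/4 : ℝ) / L ^ (3/4 : ℝ) := by
    intro i hi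
    obtain ⟨d, hd⟩ : ∃ d, d = dist (f (τ i)) (f (τ (i + 1))) := ⟨_, rfl⟩
    have hdr : d ≤ r0 := by
      rw [hd]
      refine hmod _ _ ?_
      have h2 : (τ i : ℝ) ≤ τ (i + 1) := k1 (Nat.le_succ i)
      rw [abs_sub_comm, abs_of_nonneg (by linarith)]
      exact (k4 i (Finset.mem_range.1 hi)).trans (min_le_right _ _)
    rw [← hd]
    have hd0 : 0 ≤ d := by rw [hd]; exact dist_nonneg
    rcases hd0.eq_or_lt with h0 | h0
    · rw [← h0, psi_zero]; positivity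
    unfold psi
    refine div_le_div_of_nonneg_left (by positivity) (by positivity) ?_
    refine Real.rpow_le_rpow (by linarith) ?_ (by norm_num)
    have h2 : Real.exp L ≤ Real.log (1 / d) := by
      rw [one_div, Real.log_inv, le_neg]
      have := Real.log_le_log h0 hdr
      rwa [hr0, Real.log_exp] at this
    have h3 := Real.log_le_log (Real.exp_pos _) h2
    rw [Real.log_exp] at h3
    exact h3.trans (le_max_right _ _)
  have h2 := Finset.sum_le_sum h1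
  rw [← Finset.sum_div] at h2
  have hLp : 0 < L ^ (3/4 : ℝ) := Real.rpow_pos_of_pos (by linarith) _
  have h3 := k5.trans h2
  rw [le_div_iff₀ hLp] at h3
  linarith

end Pool.Agent.X145.EV
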