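import Pool.Agent.Y41.EV.StmD

/-!
Project EV: the tree of the fast pairs (deterministic).
-/

set_option autoImplicit false

namespace Pool.Agent.X145.EV

open MeasureTheory Filter Topology Pool.Agent.Y41.EV Pool.Agent.Y995.HG

theorem VG.mono_eta {f : C(unitInterval, ℂ)} {η η' : ℝ} {s t : unitInterval} {x : ℝ}
    (h : VG f η s t x) (hη : η ≤ η') : VG f η' s t x := by
  obtain ⟨n, τ, h1, h2, h3, h4, h5⟩ := h
  exact ⟨n, τ, h1, h2, h3, fun i hi => (h4 i hi).trans hη, h5⟩

theorem tree1 : S_TREE1 := by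
  intro f η T c0 α w τ ℓ N s t hη hT hN hα hαc hw hℓ hst hc hτη hℓη hmod hsub hp
  obtain ⟨u, v, h1, h2, h3⟩ := hp
  -- gaps
  have hgap : ∀ x y : unitInterval, s ≤ x → x ≤ y → y ≤ t →
      VG f η x y (α * (T * ((y : ℝ) - x)) - α * ℓ) := by
    intro x y hx hxy hy
    rcases lt_or_ge ℓ (T * ((y : ℝ) - x)) with h | h
    · exact (hsub x y hx hxy hy h).le (by have := mul_nonneg hα hℓ.le; linarith)
    · refine (VG.triv f hη hxy).le ?_
      have := mul_le_mul_of_nonneg_left h hα
      linarith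
  -- pairs
  have hpair : ∀ a : Fin N, VG f η (u a) (v a) (psi w) := by
    intro a
    obtain ⟨-, g2, -⟩ := h1 a
    obtain ⟨g4, g5⟩ := h3 a
    have g2' : (u a : ℝ) ≤ v a := g2
    have hle : (v a : ℝ) - u a ≤ η := by
      have := g5.trans hτη
      rw [mul_comm η T] at this
      exact le_of_mul_le_mul_left this hT
    refine (VG.single g2 hle).le ?_
    refine psi_mono hw.le g4 (hmod _ _ ?_)
    rw [abs_sub_comm, abs_of_nonneg (by linarith)]
    exact hle
  have hα2 : ∀ a : Fin N, α * (T * ((v a : ℝ) - u a)) ≤ α * τ := fun a =>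
    mul_le_mul_of_nonneg_left (h3 a).2 hα
  -- induction over the pairs
  have key : ∀ k : ℕ, ∀ hk : k < N, VG f η s (v ⟨k, hk⟩)
      (α * (T * ((v ⟨k, hk⟩ : ℝ) - s)) + ((k : ℝ) + 1) * (psi w - α * (τ + ℓ))) := by
    intro k
    induction k with
    | zero =>
      intro hk
      have g1 := hgap s (u ⟨0, hk⟩) le_rfl (h1 _).1 ((h1 ⟨0, hk⟩).2.1.trans (h1 ⟨0, hk⟩).2.2)
      refine (g1.add (hpair ⟨0, hk⟩)).le ?_
      have := hα2 ⟨0, hk⟩
      push_cast
      linarith
    | succ k ih =>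
      intro hk
      have hk' : k < N := by omega
      have g0 := ih hk'
      have g1 := hgap (v ⟨k, hk'⟩) (u ⟨k + 1, hk⟩) ((h1 ⟨k, hk'⟩).1.trans (h1 ⟨k, hk'⟩).2.1)
        (h2 ⟨k, hk'⟩ ⟨k + 1, hk⟩ (by simp [Fin.lt_def]))
        ((h1 ⟨k + 1, hk⟩).2.1.trans (h1 ⟨k + 1, hk⟩).2.2)
      refine ((g0.add g1).add (hpair ⟨k + 1, hk⟩)).le ?_
      have := hα2 ⟨k + 1, hk⟩
      push_cast
      linarith
  have hN' : N - 1 < N := by omega
  have g0 := key (N - 1) hN'
  have g1 := hgap (v ⟨N - 1, hN'⟩) t ((h1 _).1.trans (h1 _).2.1) (h1 _).2.2 le_rfl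
  refine (g0.add g1).le ?_
  have e : (((N - 1 : ℕ) : ℝ)) + 1 = N := by
    have : N - 1 + 1 = N := by omega
    exact_mod_cast this
  rw [e]
  have hN1 : (1:ℝ) ≤ N := by exact_mod_cast hN
  have hN0 : 0 < N := by omega
  have hτ0 : 0 ≤ τ := by
    obtain ⟨-, g2, -⟩ := h1 ⟨0, hN0⟩
    have g2' : (u ⟨0, hN0⟩ : ℝ) ≤ v ⟨0, hN0⟩ := g2
    have g3 : 0 ≤ T * ((v ⟨0, hN0⟩ : ℝ) - u ⟨0, hN0⟩) := mul_nonneg hT.le (by linarith)
    exact g3.trans (h3 ⟨0, hN0⟩).2
  have h5 : α * (2 * τ + 4 * ℓ) ≤ psi w :=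
    (mul_le_mul_of_nonneg_right hαc (by positivity)).trans hc
  have h6 : 0 ≤ α * ℓ := by positivity
  have h7 : α * ℓ ≤ N * (α * ℓ) := le_mul_of_one_le_left h6 hN1
  have h8 : (N:ℝ) * (α * (2 * τ + 4 * ℓ)) ≤ N * psi w :=
    mul_le_mul_of_nonneg_left h5 (by linarith)
  nlinarith

/-- cutting an interval into equal pieces -/
theorem cut {f : C(unitInterval, ℂ)} {η : ℝ} {s t : unitInterval} (hst : s ≤ t) {M : ℕ}
    (hM : 0 < M) {w : ℕ → ℝ}
    (h : ∀ i < M, ∀ x y : unitInterval, s ≤ x → y ≤ t →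
      (x : ℝ) = s + i * (((t : ℝ) - s) / M) → (y : ℝ) = s + (i + 1) * (((t : ℝ) - s) / M) →
      VG f η x y (w i)) :
    VG f η s t (∑ i ∈ Finset.range M, w i) := by
  have hM0 : (0:ℝ) < M := by exact_mod_cast hM
  have hst' : (s : ℝ) ≤ t := hst
  have hd0 : 0 ≤ ((t : ℝ) - s) / M := div_nonneg (by linarith) hM0.le
  have hmem : ∀ i : ℕ, i ≤ M → (s : ℝ) ≤ (s : ℝ) + i * (((t : ℝ) - s) / M) ∧
      (s : ℝ) + i * (((t : ℝ) - s) / M) ≤ (t : ℝ) := by
    intro i hi
    have hi' : (i : ℝ) ≤ M := by exact_mod_cast hi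
    constructor
    · have : 0 ≤ (i : ℝ) * (((t : ℝ) - s) / M) := by positivity
      linarith
    · have h1 : (i : ℝ) * (((t : ℝ) - s) / M) ≤ M * (((t : ℝ) - s) / M) :=
        mul_le_mul_of_nonneg_right hi' hd0
      rw [mul_div_cancel₀ _ hM0.ne'] at h1
      linarith
  have key : ∀ k : ℕ, k ≤ M → ∀ y : unitInterval, (y : ℝ) = s + k * (((t : ℝ) - s) / M) →
      VG f η s y (∑ i ∈ Finset.range k, w i) := by
    intro k
    induction k with
    | zero =>
      intro _ y hy
      have : y = s := by apply Subtype.ext; rw [hy]; simp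
      rw [this, Finset.sum_range_zero]
      exact VG.refl f η s
    | succ k ih =>
      intro hk y hy
      obtain ⟨g1, g2⟩ := hmem k (by omega)
      obtain ⟨g3, g4⟩ := hmem (k + 1) hk
      have g5 := ih (by omega) ⟨s + k * (((t : ℝ) - s) / M), s.2.1.trans g1, g2.trans t.2.2⟩ rfl
      have g6 := h k (by omega) ⟨s + k * (((t : ℝ) - s) / M), s.2.1.trans g1, g2.trans t.2.2⟩ y
        g1 (by show (y : ℝ) ≤ t; rw [hy]; exact g4) rfl (by rw [hy]; push_cast; ring)
      rw [Finset.sum_range_succ]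
      exact g5.add g6
  refine key M le_rfl t ?_
  rw [mul_div_cancel₀ _ hM0.ne']
  ring

theorem tree2 : S_TREE2 := by
  intro f η T c0 N ℓ τ w a i0 I0 hη hT hc0 hmod hi hc h4 hp m
  -- generalise the first scale
  have key : ∀ m : ℕ, ∀ k : ℕ, i0 ≤ k → ∀ s t : unitInterval, Set.Icc s t ⊆ I0 →
      ℓ k < T * ((t : ℝ) - s) →
      VG f η s t (min c0 (∑ i ∈ Finset.Ico k (k + m), a i) * (T * ((t : ℝ) - s))) := by
    intro m
    induction m with
    | zero =>
      intro k hk s t hI hl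
      have hst : s ≤ t := by
        have h5 := (hi k hk).2.2.1
        have h6 : 0 < T * ((t : ℝ) - s) := by linarith
        have h7 : 0 < (t : ℝ) - s := (mul_pos_iff_of_pos_left hT).1 h6
        show (s : ℝ) ≤ t
        linarith
      rw [add_zero, Finset.Ico_self, Finset.sum_empty, min_eq_right hc0.le, zero_mul]
      exact VG.triv f hη hst
    | succ m ih =>
      intro k hk s t hI hl
      obtain ⟨g1, g2, g3, g4, g5, g6⟩ := hi k hk
      obtain ⟨k1, k2, k3, k4, k5, k6⟩ := hi (k + 1) (by omega)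
      obtain ⟨α, hα⟩ : ∃ α, α = min c0 (∑ i ∈ Finset.Ico (k + 1) (k + 1 + m), a i) := ⟨_, rfl⟩
      have hα0 : 0 ≤ α := by
        rw [hα]
        refine le_min hc0.le (Finset.sum_nonneg fun i hii => ?_)
        rw [Finset.mem_Ico] at hii
        exact (hi i (by omega)).2.2.2.1
      have hαc : α ≤ c0 := by rw [hα]; exact min_le_left _ _
      have hdpos : 0 < (t : ℝ) - s := (mul_pos_iff_of_pos_left hT).1 (g3.trans hl)
      have hst : s ≤ t := by show (s : ℝ) ≤ t; linarith
      -- number of pieces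
      obtain ⟨x, hx⟩ : ∃ x, x = T * ((t : ℝ) - s) / ℓ k := ⟨_, rfl⟩
      have hx1 : 1 < x := by rw [hx, lt_div_iff₀ g3]; linarith
      obtain ⟨M, hM⟩ : ∃ M, M = ⌈x / 2⌉₊ := ⟨_, rfl⟩
      have hM1 : x / 2 ≤ M := by rw [hM]; exact Nat.le_ceil _
      have hM2 : (M : ℝ) < x := by
        rcases le_or_gt x 2 with h | h
        · have : M ≤ 1 := by
            rw [hM]
            exact Nat.ceil_le.mpr (by push_cast; linarith)
          have h' : (M : ℝ) ≤ 1 := by exact_mod_cast this
          linarith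
        · have : (M : ℝ) < x / 2 + 1 := by rw [hM]; exact Nat.ceil_lt_add_one (by linarith)
          linarith
      have hM0 : (0:ℝ) < M := by linarith
      have hM0' : 0 < M := by exact_mod_cast hM0
      have e1 : T * (((t : ℝ) - s) / M) = ℓ k * (x / M) := by
        rw [hx]; field_simp
      have hpl : ℓ k < T * (((t : ℝ) - s) / M) := by
        rw [e1]
        have : 1 < x / M := by rw [lt_div_iff₀ hM0]; linarith
        nlinarith
      have hpu : T * (((t : ℝ) - s) / M) ≤ 2 * ℓ k := by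
        rw [e1]
        have : x / M ≤ 2 := by rw [div_le_iff₀ hM0]; linarith
        nlinarith
      have hsum : VG f η s t (∑ i ∈ Finset.range M, (α + a k) * (T * (((t : ℝ) - s) / M))) := by
        refine cut hst hM0' fun i hiM y z hy hz hyv hzv => ?_
        have hlen : (z : ℝ) - y = ((t : ℝ) - s) / M := by rw [hyv, hzv]; ring
        have hpos' : 0 < ((t : ℝ) - s) / M := by positivity
        have hyz : y ≤ z := by show (y : ℝ) ≤ z; linarith
        have hsubI : Set.Icc y z ⊆ I0 := (Set.Icc_subset_Icc hy hz).trans hI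
        have h7 := tree1 f η T c0 α (w k) (τ k) (ℓ (k + 1)) (N k) y z hη hT g1 hα0 hαc g2 k3 hyz
          (hc k hk) g5 k6 hmod
          (fun s' t' q1 q2 q3 q4 => by
            rw [hα]
            exact ih (k + 1) (by omega) s' t' ((Set.Icc_subset_Icc q1 q3).trans hsubI) q4)
          (hp k hk y z hsubI (by rw [hlen]; exact hpl))
        refine h7.le ?_
        rw [hlen]
        have h8 : a k * (T * (((t : ℝ) - s) / M)) ≤ a k * (2 * ℓ k) :=
          mul_le_mul_of_nonneg_left hpu g4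
        have h9 := h4 k hk
        nlinarith
      refine hsum.le ?_
      rw [Finset.sum_const, Finset.card_range, nsmul_eq_mul]
      have e2 : (M : ℝ) * ((α + a k) * (T * (((t : ℝ) - s) / M))) =
          (α + a k) * (T * ((t : ℝ) - s)) := by field_simp
      rw [e2]
      refine mul_le_mul_of_nonneg_right ?_ (by positivity)
      have e3 : k + (m + 1) = k + 1 + m := by ring
      rw [e3, Finset.sum_eq_sum_Ico_succ_bot (by omega), hα]
      rcases le_total c0 (∑ i ∈ Finset.Ico (k + 1) (k + 1 + m), a i) with h | h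
      · rw [min_eq_left h]
        exact (min_le_left _ _).trans (by linarith)
      · rw [min_eq_right h]
        exact (min_le_right _ _).trans (by linarith)
  exact fun s t => key m i0 le_rfl s t

theorem lowbulk (sc1 : S_SC1) (sc2 : S_SC2) (sc3 : S_SC3) : S_LOWBULK := by
  intro θ K2 A0 hθ hK2 hA0
  obtain ⟨c0, hc0, h1⟩ := sc1 θ K2 A0 hθ hK2 hA0
  obtain ⟨q1, q2, q3, q4, q5, q6⟩ := sc3 θ K2 A0 hθ hK2 hA0
  refine ⟨c0, hc0, ?_⟩
  intro f T I0 hT hpairs s t hst hI η hη
  rcases hst.eq_or_lt with heq | hlt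
  · rw [heq, sub_self, mul_zero]
    exact VG.refl f η t
  have hlt' : (s : ℝ) < t := hlt
  -- uniform continuity
  obtain ⟨η1, hη1, hmod⟩ : ∃ η1 : ℝ, 0 < η1 ∧ ∀ u v : unitInterval, |(u : ℝ) - v| ≤ η1 →
      dist (f u) (f v) ≤ 1 := by
    have hu := CompactSpace.uniformContinuous_of_continuous f.continuous
    rw [Metric.uniformContinuous_iff] at hu
    obtain ⟨δ, hδ, h⟩ := hu 1 one_pos
    refine ⟨δ / 2, by positivity, fun u v huv => (h ?_).le⟩
    rw [Subtype.dist_eq, Real.dist_eq]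
    linarith
  obtain ⟨η2, hη2⟩ : ∃ η2, η2 = min η η1 := ⟨_, rfl⟩
  have hη20 : 0 < η2 := by rw [hη2]; exact lt_min hη hη1
  have hTη : 0 < η2 * T := by positivity
  have hpos : 0 < T * ((t : ℝ) - s) := mul_pos hT (by linarith)
  have hev := (((h1.and hpairs).and (q5.and (q1.eventually (gt_mem_nhds hTη)))).and
    ((q2.eventually (gt_mem_nhds hTη)).and (q1.eventually (gt_mem_nhds hpos)))).and
      (eventually_ge_atTop 20)
  rw [eventually_atTop] at hev
  obtain ⟨i0, hi0⟩ := hev
  obtain ⟨m, hm⟩ := ((sc2 K2 A0 hK2 hA0 i0).eventually (eventually_ge_atTop c0)).exists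
  have hNN : ∀ i, i0 ≤ i → 1 ≤ NN i := fun i hi => by
    have := NN_big (hi0 i hi).2
    omega
  have hres := tree2 f η2 T c0 NN (ell A0 K2) (tau θ K2) ww (aa A0 K2) i0 I0 hη20 hT hc0
    (fun u v huv => hmod u v (huv.trans (by rw [hη2]; exact min_le_right _ _)))
    (fun i hi => by
      obtain ⟨⟨⟨-, ⟨g3, g4⟩⟩, g5, -⟩, -⟩ := hi0 i hi
      refine ⟨hNN i hi, ww_pos i, g3, ?_, g5.le, g4.le⟩
      unfold aa
      have := psi_nonneg (ww_pos i).le
      positivity)
    (fun i hi => (hi0 i hi).1.1.1.1)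
    (fun i hi => by
      obtain ⟨⟨⟨-, ⟨g3, g4⟩⟩, g5, -⟩, -⟩ := hi0 i hi
      unfold aa
      rw [mul_div_cancel₀ _ (by positivity)])
    (fun i hi s' t' hI' hl => ((hi0 i hi).1.1.1.2 s' t' hI' hl).sort (ww_pos i))
    m s t hI (hi0 i0 le_rfl).1.2.2
  rw [min_eq_left hm] at hres
  refine VG.mono_eta (hres.le (by rw [mul_assoc])) ?_
  rw [hη2]
  exact min_le_left _ _

theorem lowall : S_LOWALL := by
  classical
  intro f T c0 g hg hT hc0 hz hbulk s t hst η hη x hx
  have hst' : (s : ℝ) ≤ t := hst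
  -- the sets `{g ≤ 2/(k+1)}`
  have hlimV : Tendsto (fun k : ℕ => volume {u : unitInterval | g u ≤ 2 / ((k : ℝ) + 1)}) atTop
      (𝓝 0) := by
    have h1 : Tendsto (fun k : ℕ => volume {u : unitInterval | g u ≤ 2 / ((k : ℝ) + 1)}) atTop
        (𝓝 (volume (⋂ k : ℕ, {u : unitInterval | g u ≤ 2 / ((k : ℝ) + 1)}))) := by
      refine tendsto_measure_iInter_atTop (fun k => ?_) ?_ ⟨0, measure_ne_top _ _⟩
      · exact (isClosed_le hg continuous_const).measurableSet.nullMeasurableSet
      · intro i j hij u hu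
        have hij' : (i : ℝ) ≤ j := by exact_mod_cast hij
        refine le_trans (show g u ≤ _ from hu) ?_
        exact div_le_div_of_nonneg_left (by norm_num) (by positivity) (by linarith)
    have h2 : (⋂ k : ℕ, {u : unitInterval | g u ≤ 2 / ((k : ℝ) + 1)}) ⊆ {u | g u ≤ 0} := by
      intro u hu
      rw [Set.mem_iInter] at hu
      have h3 : Tendsto (fun k : ℕ => 2 * (1 / ((k : ℝ) + 1))) atTop (𝓝 (2 * 0)) :=
        tendsto_one_div_add_atTop_nhds_zero_nat.const_mul 2
      rw [mul_zero] at h3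
      exact ge_of_tendsto' h3 fun k => by
        have : g u ≤ 2 / ((k : ℝ) + 1) := hu k
        rwa [mul_one_div]
    rwa [measure_mono_null h2 hz] at h1
  obtain ⟨e, he⟩ : ∃ e, e = (c0 * T * ((t : ℝ) - s) - x) / (c0 * T) := ⟨_, rfl⟩
  have he0 : 0 < e := by rw [he]; exact div_pos (by linarith) (by positivity)
  obtain ⟨k, hk⟩ := (hlimV.eventually (gt_mem_nhds (ENNReal.ofReal_pos.mpr he0))).exists
  -- uniform continuity of `g`
  have hk0 : (0:ℝ) < 1 / ((k : ℝ) + 1) := by positivity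
  obtain ⟨δ, hδ, hu⟩ := Metric.uniformContinuous_iff.1
    (CompactSpace.uniformContinuous_of_continuous hg) (1 / ((k : ℝ) + 1)) hk0
  obtain ⟨M, hM⟩ := exists_nat_gt (1 / δ)
  have hM0 : (0:ℝ) < M := lt_trans (by positivity) hM
  have hM0' : 0 < M := by exact_mod_cast hM0
  have hMδ : 1 / (M : ℝ) < δ := by
    rw [div_lt_iff₀ hM0]
    rw [div_lt_iff₀ hδ] at hM
    linarith
  have hd1 : (t : ℝ) - s ≤ 1 := by have := t.2.2; have := s.2.1; linarith
  have hd0 : 0 ≤ (t : ℝ) - s := by linarith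
  have hdM : ((t : ℝ) - s) / M < δ :=
    (div_le_div_of_nonneg_right hd1 hM0.le).trans_lt hMδ
  have hdM0 : 0 ≤ ((t : ℝ) - s) / M := by positivity
  -- good pieces
  obtain ⟨pt, hpt⟩ : ∃ pt : ℕ → unitInterval, ∀ i ≤ M, (pt i : ℝ) = s + i * (((t : ℝ) - s) / M) := by
    refine ⟨fun i => if h : i ≤ M then ⟨s + i * (((t : ℝ) - s) / M), ?_, ?_⟩ else 0, ?_⟩
    · have := s.2.1; positivity
    · have hi' : (i : ℝ) ≤ M := by exact_mod_cast h
      have h1 : (i : ℝ) * (((t : ℝ) - s) / M) ≤ M * (((t : ℝ) - s) / M) :=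
        mul_le_mul_of_nonneg_right hi' hdM0
      rw [mul_div_cancel₀ _ hM0.ne'] at h1
      have := t.2.2
      linarith
    · intro i hi
      simp only [dif_pos hi]
  obtain ⟨gd, hgd⟩ : ∃ gd : ℕ → Prop, gd = fun i => ∀ u ∈ Set.Icc (pt i) (pt (i + 1)),
    1 / ((k : ℝ) + 1) < g u := ⟨_, rfl⟩
  have hcut : VG f η s t (∑ i ∈ Finset.range M,
      if gd i then c0 * T * (((t : ℝ) - s) / M) else 0) := by
    refine cut hst hM0' fun i hiM y z hy hz hyv hzv => ?_
    have ey : y = pt i := by apply Subtype.ext; rw [hyv, hpt i (by omega)]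
    have ez : z = pt (i + 1) := by
      apply Subtype.ext; rw [hzv, hpt (i + 1) (by omega)]; push_cast; ring
    have hlen : (z : ℝ) - y = ((t : ℝ) - s) / M := by rw [hyv, hzv]; ring
    have hyz : y ≤ z := by show (y : ℝ) ≤ z; linarith
    by_cases hgi : gd i
    · rw [if_pos hgi, ← hlen]
      refine hbulk k y z hyz ?_ η hη
      rw [hgd] at hgi
      rw [ey, ez]
      exact hgi
    · rw [if_neg hgi]
      exact VG.triv f hη hyz
  refine hcut.le ?_
  rw [← Finset.sum_filter, Finset.sum_const, nsmul_eq_mul]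
  -- the bad pieces are short
  have hbadm : (((Finset.range M).filter (fun i => ¬ gd i)).card : ℝ) * (((t : ℝ) - s) / M) ≤ e := by
    have hmono : ∀ i j, i ≤ j → j ≤ M → pt i ≤ pt j := by
      intro i j hij hj
      show (pt i : ℝ) ≤ pt j
      rw [hpt i (by omega), hpt j hj]
      have : (i : ℝ) ≤ j := by exact_mod_cast hij
      have := mul_le_mul_of_nonneg_right this hdM0
      linarith
    have h1 : volume (⋃ i ∈ (Finset.range M).filter (fun i => ¬ gd i),
        Set.Ioo (pt i) (pt (i + 1))) =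
        ∑ i ∈ (Finset.range M).filter (fun i => ¬ gd i), volume (Set.Ioo (pt i) (pt (i + 1))) := by
      refine measure_biUnion_finset ?_ fun i _ => measurableSet_Ioo
      intro i hi j hj hij
      have hi' := Finset.mem_range.1 (Finset.mem_filter.1 hi).1
      have hj' := Finset.mem_range.1 (Finset.mem_filter.1 hj).1
      rw [Function.onFun, Set.disjoint_left]
      intro y hy hz
      rcases lt_or_gt_of_ne hij with h | h
      · have := hmono (i + 1) j (by omega) (by omega)
        exact absurd (hy.2.trans_le this) (not_lt.mpr hz.1.le)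
      · have := hmono (j + 1) i (by omega) (by omega)
        exact absurd (hz.2.trans_le this) (not_lt.mpr hy.1.le)
    have h2 : volume (⋃ i ∈ (Finset.range M).filter (fun i => ¬ gd i),
        Set.Ioo (pt i) (pt (i + 1))) ≤ volume {u : unitInterval | g u ≤ 2 / ((k : ℝ) + 1)} := by
      refine measure_mono ?_
      intro y hy
      simp only [Set.mem_iUnion] at hy
      obtain ⟨i, hi, hy⟩ := hy
      rw [Finset.mem_filter, Finset.mem_range, hgd] at hi
      obtain ⟨hiM, hi⟩ := hi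
      push Not at hi
      obtain ⟨u, hu1, hu2⟩ := hi
      have hdist : dist y u < δ := by
        rw [Subtype.dist_eq, Real.dist_eq]
        have a1 : (pt i : ℝ) < y := hy.1
        have a2 : (y : ℝ) < pt (i + 1) := hy.2
        have a3 : (pt i : ℝ) ≤ u := hu1.1
        have a4 : (u : ℝ) ≤ pt (i + 1) := hu1.2
        have a5 : (pt (i + 1) : ℝ) - pt i = ((t : ℝ) - s) / M := by
          rw [hpt i (by omega), hpt (i + 1) (by omega)]; push_cast; ring
        rw [abs_lt]
        constructor <;> linarith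
      have h3 := hu hdist
      rw [Real.dist_eq, abs_lt] at h3
      show g y ≤ 2 / ((k : ℝ) + 1)
      have e2 : 2 / ((k : ℝ) + 1) = 1 / ((k : ℝ) + 1) + 1 / ((k : ℝ) + 1) := by ring
      rw [e2]
      linarith [h3.2]
    have h3 : ∑ i ∈ (Finset.range M).filter (fun i => ¬ gd i),
        volume (Set.Ioo (pt i) (pt (i + 1))) =
        ENNReal.ofReal ((((Finset.range M).filter (fun i => ¬ gd i)).card : ℝ) *
          (((t : ℝ) - s) / M)) := by
      rw [Finset.sum_congr rfl (g := fun _ => ENNReal.ofReal (((t : ℝ) - s) / M)),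
        Finset.sum_const, nsmul_eq_mul, ENNReal.ofReal_mul (by positivity),
        ENNReal.ofReal_natCast]
      intro i hi
      rw [Finset.mem_filter, Finset.mem_range] at hi
      rw [unitInterval.volume_Ioo, hpt i (by omega), hpt (i + 1) (by omega)]
      congr 1
      push_cast
      ring
    rw [h1, h3] at h2
    have h4 := h2.trans hk.le
    exact (ENNReal.ofReal_le_ofReal_iff he0.le).1 h4
  have hcard : (((Finset.range M).filter gd).card : ℝ) +
      (((Finset.range M).filter (fun i => ¬ gd i)).card : ℝ) = M := by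
    have := Finset.card_filter_add_card_filter_not (s := Finset.range M) gd
    rw [Finset.card_range] at this
    exact_mod_cast this
  have h5 : (M : ℝ) * (((t : ℝ) - s) / M) = (t : ℝ) - s := mul_div_cancel₀ _ hM0.ne'
  have h6 : (((Finset.range M).filter gd).card : ℝ) * (((t : ℝ) - s) / M) ≥ (t : ℝ) - s - e := by
    have : (((Finset.range M).filter gd).card : ℝ) * (((t : ℝ) - s) / M) =
        M * (((t : ℝ) - s) / M) -
        (((Finset.range M).filter (fun i => ¬ gd i)).card : ℝ) * (((t : ℝ) - s) / M) := by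
      rw [← hcard]; ring
    rw [this, h5]
    linarith
  have h7 : c0 * T * e = c0 * T * ((t : ℝ) - s) - x := by
    rw [he]; field_simp
  have h8 : c0 * T * ((t : ℝ) - s - e) ≤
      c0 * T * ((((Finset.range M).filter gd).card : ℝ) * (((t : ℝ) - s) / M)) :=
    mul_le_mul_of_nonneg_left h6 (by positivity)
  have e9 : (((Finset.range M).filter gd).card : ℝ) * (c0 * T * (((t : ℝ) - s) / M)) =
      c0 * T * ((((Finset.range M).filter gd).card : ℝ) * (((t : ℝ) - s) / M)) := by ring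
  rw [e9]
  nlinarith

end Pool.Agent.X145.EV
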