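import Pool.Agent.X145.EV.Up
import Pool.Agent.X145.EV.Sc
import Pool.Agent.X145.EV.Tree
import Pool.Agent.X145.EV.Lil
import Pool.Agent.Y995.TP.FastTop

/-!
Project EV: almost sure statements and the final assembly.
-/

set_option autoImplicit false

namespace Pool.Agent.X145.EV

open H974 Finset H342P H984P H984N Y994.MC Pool.Agent.Y985.ME Pool.Agent.Y884.ME
open Pool.Agent.Y995.FS Pool.Agent.Y995.HG MeasureTheory Filter Topology Pool.Agent.Y41.EV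
open scoped ENNReal

theorem aev : S_AEV := by
  intro hopen hsc θ K2 A0 hθ hK2 hA0 R A hA hlat δ hδ hlim μ hμ
  obtain ⟨q1, q2, q3, q4, q5, q6⟩ := hsc θ K2 A0 hθ hK2 hA0
  refine bc R (K := 1) le_rfl
    (B := fun ρ j => BadV R ρ (ww j) (tau θ K2 j) (ell A0 K2 j) (NN j))
    (fun ρ j => hopen R ρ _ _ _ _) ?_ hδ hlim hμ
  intro ρ hρ
  have h1 : ∀ᶠ i : ℕ in atTop, 20 ≤ i ∧ 1 ≤ kf K2 i ∧ A0 * (ww i * EE K2 i) ≤ ρ :=
    (eventually_ge_atTop 20).and ((q3.eventually (eventually_ge_atTop 1)).and (q6 ρ hρ))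
  rw [eventually_atTop] at h1
  obtain ⟨j1, hj1⟩ := h1
  refine ⟨A, j1, hA, fun j hj => ?_⟩
  obtain ⟨g1, g2, g3⟩ := hj1 j hj
  obtain ⟨δ1, hδ1, h4⟩ := hlat (kf K2 j) (NN j) (ww j) ρ g2
    (by have := NN_big g1; omega) (ww_pos j)
    (by
      unfold ww
      have : ((1:ℝ)/2) ^ (4 * j ^ 2) ≤ (1/2) ^ 1 :=
        pow_le_pow_of_le_one (by norm_num) (by norm_num) (by
          have : 1 ≤ j ^ 2 := Nat.one_le_pow _ _ (by omega)
          omega)
      simpa using this) g3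
  refine ⟨δ1, hδ1, fun δ hδ hδ' => ?_⟩
  exact (h4 δ hδ hδ').trans (pr_bound hA g1)

theorem yy_pow {K : ℝ} (hK : 0 < K) {n : ℕ} (hn : 2 ≤ n) (j : ℕ) :
    yy K n j ^ (7/4 : ℝ) =
      ((2:ℝ) ^ j) ^ (7/4 : ℝ) * (K ^ (7/4 : ℝ) * ((1/2) ^ n * Real.log n ^ (3/4 : ℝ))) := by
  have hlog : 0 ≤ Real.log n := Real.log_nonneg (by exact_mod_cast (by omega : 1 ≤ n))
  unfold yy
  rw [Real.mul_rpow (by positivity) (by positivity), Real.mul_rpow hK.le (by positivity),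
    Real.mul_rpow (x := (((1:ℝ)/2) ^ n) ^ (4/7 : ℝ)) (by positivity) (by positivity),
    ← Real.rpow_mul (by positivity), ← Real.rpow_mul hlog]
  norm_num

theorem ftae : S_FTAE := by
  classical
  intro hopen a B ha hB
  obtain ⟨K, hKd⟩ : ∃ K : ℝ, K = (8 * 2 ^ (4/3 : ℝ) / a) ^ (3/7 : ℝ) := ⟨_, rfl⟩
  have hK : 0 < K := by rw [hKd]; positivity
  have hK7 : a * K ^ (7/3 : ℝ) = 8 * 2 ^ (4/3 : ℝ) := by
    rw [hKd, ← Real.rpow_mul (by positivity)]
    norm_num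
    field_simp
  refine ⟨K, hK, ?_⟩
  intro R A y0 hA hy0 h δ hδ hlim μ hμ
  -- the scales
  have hev : ∀ᶠ n : ℕ in atTop, 2 ≤ n ∧ 2 * B ≤ K ^ (7/4 : ℝ) * Real.log n ^ (3/4 : ℝ) := by
    refine (eventually_ge_atTop 2).and ?_
    have h1 : Tendsto (fun n : ℕ => K ^ (7/4 : ℝ) * Real.log n ^ (3/4 : ℝ)) atTop atTop := by
      refine Tendsto.const_mul_atTop (by positivity) ?_
      exact (tendsto_rpow_atTop (by norm_num)).comp
        (Real.tendsto_log_atTop.comp tendsto_natCast_atTop_atTop)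
    exact h1.eventually (eventually_ge_atTop _)
  rw [eventually_atTop] at hev
  obtain ⟨n1, hn1⟩ := hev
  obtain ⟨Bq, hBq⟩ : ∃ Bq : ℕ × ℕ → Set X, Bq = fun q : ℕ × ℕ =>
    if n1 ≤ q.1 ∧ yy K q.1 q.2 ≤ y0 then
      {p : X | ((q.1 : ℝ)) ^ (-(2 * 2 ^ q.2) : ℝ) <
        p.2 * (volume (FT p (yy K q.1 q.2) (2 * (1/2) ^ q.1))).toReal} else ∅ := ⟨_, rfl⟩
  obtain ⟨g, hg⟩ : ∃ g : ℕ × ℕ → ℝ, g = fun q : ℕ × ℕ =>
    A * ((1 / (q.1 : ℝ) ^ 2) * (1/2) ^ q.2) := ⟨_, rfl⟩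
  have hgs : Summable g := by
    rw [hg]
    refine Summable.mul_left A ?_
    exact Summable.mul_of_nonneg (f := fun n : ℕ => 1 / (n : ℝ) ^ 2) (g := fun j : ℕ => (1/2 : ℝ) ^ j)
      (Real.summable_one_div_nat_pow.mpr (by norm_num))
      (summable_geometric_of_lt_one (by norm_num) (by norm_num))
      (fun n => by positivity) (fun j => by positivity)
  have hbound : ∀ q, (μ : Measure X) (Bq q) ≤ ENNReal.ofReal (g q) := by
    rintro ⟨n, j⟩
    by_cases hc : n1 ≤ n ∧ yy K n j ≤ y0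
    · obtain ⟨g1, g2⟩ := hn1 n hc.1
      have hn' : (2:ℝ) ≤ n := by exact_mod_cast g1
      have hn0 : (0:ℝ) < n := by linarith
      have hlog : 0 < Real.log n := Real.log_pos (by linarith)
      have hw0 : (0:ℝ) < (1/2) ^ n := by positivity
      have h2j : (1:ℝ) ≤ 2 ^ j := one_le_pow₀ (by norm_num)
      have hyp : 0 < yy K n j := by unfold yy; positivity
      have hset : Bq (n, j) = {p : X | ((n : ℝ)) ^ (-(2 * 2 ^ j) : ℝ) <
          p.2 * (volume (FT p (yy K n j) (2 * (1/2) ^ n))).toReal} := by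
        rw [hBq]
        simp only
        rw [if_pos hc]
      have hBh : B * (2 * (1/2) ^ n) ≤ yy K n j ^ (7/4 : ℝ) := by
        rw [yy_pow hK g1]
        have h3 : 1 ≤ ((2:ℝ) ^ j) ^ (7/4 : ℝ) := Real.one_le_rpow h2j (by norm_num)
        have h4 : 0 ≤ K ^ (7/4 : ℝ) * ((1/2) ^ n * Real.log n ^ (3/4 : ℝ)) := by positivity
        calc B * (2 * (1/2) ^ n) = (2 * B) * (1/2) ^ n := by ring
          _ ≤ (K ^ (7/4 : ℝ) * Real.log n ^ (3/4 : ℝ)) * (1/2) ^ n := by gcongr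
          _ = K ^ (7/4 : ℝ) * ((1/2) ^ n * Real.log n ^ (3/4 : ℝ)) := by ring
          _ ≤ _ := le_mul_of_one_le_left h4 h3
      obtain ⟨δ1, hδ1, h3⟩ := h (yy K n j) (2 * (1/2) ^ n) ((n : ℝ) ^ (-(2 * 2 ^ j) : ℝ)) hyp hc.2
        (by positivity) hBh (by positivity)
      have hexp : A * Real.exp (-(a * (yy K n j ^ (7/4 : ℝ) / (2 * (1/2) ^ n)) ^ (4/3 : ℝ))) /
          (n : ℝ) ^ (-(2 * 2 ^ j) : ℝ) ≤ g (n, j) := by
        have e1 : (yy K n j ^ (7/4 : ℝ) / (2 * (1/2) ^ n)) ^ (4/3 : ℝ) =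
            ((2:ℝ) ^ j) ^ (7/3 : ℝ) * (K ^ (7/3 : ℝ) * Real.log n) / 2 ^ (4/3 : ℝ) := by
          rw [yy_pow hK g1]
          have e2 : ((2:ℝ) ^ j) ^ (7/4 : ℝ) * (K ^ (7/4 : ℝ) * ((1/2) ^ n * Real.log n ^ (3/4 : ℝ))) /
              (2 * (1/2) ^ n) =
              (((2:ℝ) ^ j) ^ (7/4 : ℝ) * (K ^ (7/4 : ℝ) * Real.log n ^ (3/4 : ℝ))) / 2 := by
            field_simp
          rw [e2, Real.div_rpow (by positivity) (by norm_num), Real.mul_rpow (by positivity)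
            (by positivity), Real.mul_rpow (x := K ^ (7/4 : ℝ)) (by positivity) (by positivity),
            ← Real.rpow_mul (by positivity), ← Real.rpow_mul hK.le, ← Real.rpow_mul hlog.le]
          norm_num
        have e3 : a * (((2:ℝ) ^ j) ^ (7/3 : ℝ) * (K ^ (7/3 : ℝ) * Real.log n) / 2 ^ (4/3 : ℝ)) =
            8 * ((2:ℝ) ^ j) ^ (7/3 : ℝ) * Real.log n := by
          calc a * (((2:ℝ) ^ j) ^ (7/3 : ℝ) * (K ^ (7/3 : ℝ) * Real.log n) / 2 ^ (4/3 : ℝ))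
              = (a * K ^ (7/3 : ℝ)) * (((2:ℝ) ^ j) ^ (7/3 : ℝ) * Real.log n) / 2 ^ (4/3 : ℝ) := by
                ring
            _ = _ := by rw [hK7]; field_simp
        rw [e1, e3]
        have h4 : (2:ℝ) ^ j ≤ ((2:ℝ) ^ j) ^ (7/3 : ℝ) := by
          calc (2:ℝ) ^ j = ((2:ℝ) ^ j) ^ (1 : ℝ) := (Real.rpow_one _).symm
            _ ≤ _ := Real.rpow_le_rpow_of_exponent_le h2j (by norm_num)
        have h5 : Real.exp (-(8 * ((2:ℝ) ^ j) ^ (7/3 : ℝ) * Real.log n)) ≤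
            (n : ℝ) ^ (-(8 * 2 ^ j) : ℝ) := by
          rw [Real.rpow_def_of_pos hn0]
          refine Real.exp_le_exp.mpr ?_
          nlinarith
        have h6 : (n : ℝ) ^ (-(8 * 2 ^ j) : ℝ) / (n : ℝ) ^ (-(2 * 2 ^ j) : ℝ) =
            (n : ℝ) ^ (-(6 * 2 ^ j) : ℝ) := by
          rw [← Real.rpow_sub hn0]
          congr 1
          ring
        have h7 : (1:ℝ) + j ≤ 2 ^ j := by
          have : j + 1 ≤ 2 ^ j := Nat.lt_two_pow_self
          have h2 : ((j + 1 : ℕ) : ℝ) ≤ ((2 ^ j : ℕ) : ℝ) := by exact_mod_cast this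
          push_cast at h2
          linarith
        have h8 : (n : ℝ) ^ (-(6 * 2 ^ j) : ℝ) ≤ (1 / (n : ℝ) ^ 2) * (1/2) ^ j := by
          calc (n : ℝ) ^ (-(6 * 2 ^ j) : ℝ) ≤ (n : ℝ) ^ (-2 + -1 * (j : ℝ) : ℝ) := by
                refine Real.rpow_le_rpow_of_exponent_le (by linarith) ?_
                have : (0:ℝ) ≤ j := Nat.cast_nonneg j
                linarith
            _ = (n : ℝ) ^ (-2 : ℝ) * ((n : ℝ) ^ (-1 : ℝ)) ^ j := by
                rw [Real.rpow_add hn0, Real.rpow_mul hn0.le, Real.rpow_natCast]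
            _ ≤ (1 / (n : ℝ) ^ 2) * (1/2) ^ j := by
                have e5 : (n : ℝ) ^ (-2 : ℝ) = 1 / (n:ℝ) ^ 2 := by
                  rw [Real.rpow_neg hn0.le, one_div]
                  congr 1
                  exact_mod_cast Real.rpow_natCast (n : ℝ) 2
                have e6 : (n : ℝ) ^ (-1 : ℝ) ≤ 1/2 := by
                  rw [Real.rpow_neg_one, one_div]
                  exact inv_anti₀ (by norm_num) hn'
                rw [e5]
                gcongr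
        rw [hg]
        simp only
        calc A * Real.exp (-(8 * ((2:ℝ) ^ j) ^ (7/3 : ℝ) * Real.log n)) /
              (n : ℝ) ^ (-(2 * 2 ^ j) : ℝ)
            ≤ A * (n : ℝ) ^ (-(8 * 2 ^ j) : ℝ) / (n : ℝ) ^ (-(2 * 2 ^ j) : ℝ) := by gcongr
          _ = A * ((n : ℝ) ^ (-(8 * 2 ^ j) : ℝ) / (n : ℝ) ^ (-(2 * 2 ^ j) : ℝ)) := by ring
          _ ≤ _ := by rw [h6]; gcongr
      have hg0 : 0 ≤ g (n, j) := by rw [hg]; positivity
      have h4 := limit_closed R hδ hlim hμ (G := (Bq (n, j))ᶜ)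
        (by rw [hset]; exact (hopen _ _ _ (by positivity)).isClosed_compl) (ε := g (n, j))
        hg0 hδ1 (fun d hd hd' => by
          have := (h3 d hd hd').trans hexp
          rw [hset]
          simpa only [Set.mem_compl_iff, not_not] using this)
      rwa [compl_compl] at h4
    · have : Bq (n, j) = ∅ := by
        rw [hBq]
        simp only
        rw [if_neg hc]
      rw [this, measure_empty]
      exact zero_le
  have hfin : ∑' q, (μ : Measure X) (Bq q) ≠ ⊤ :=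
    ne_top_of_le_ne_top hgs.tsum_ofReal_ne_top (ENNReal.tsum_le_tsum hbound)
  filter_upwards [ae_finite_setOfPred_mem hfin] with p hp
  rcases le_or_gt p.2 0 with hp0 | hp0
  · refine ⟨0, fun n _ j => ?_⟩
    have h1 : p.2 * (volume (FT p (yy K n j) (2 * (1/2) ^ n))).toReal ≤ 0 :=
      mul_nonpos_of_nonpos_of_nonneg hp0 ENNReal.toReal_nonneg
    exact h1.trans (by positivity)
  -- the finite set
  obtain ⟨N, hN⟩ : ∃ N : ℕ, ∀ q : ℕ × ℕ, p ∈ Bq q → q.1 < N := by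
    obtain ⟨M, hM⟩ := (hp.image Prod.fst).bddAbove
    refine ⟨M + 1, fun q hq => ?_⟩
    have := hM (Set.mem_image_of_mem Prod.fst hq)
    omega
  -- uniform continuity
  obtain ⟨η, hη, hmod⟩ := Metric.uniformContinuous_iff.1
    (CompactSpace.uniformContinuous_of_continuous p.1.continuous) y0 hy0
  have h0 : Tendsto (fun i : ℕ => 2 * ((1:ℝ)/2) ^ i) atTop (𝓝 (2 * 0)) :=
    (tendsto_pow_atTop_nhds_zero_of_lt_one (by norm_num) (by norm_num)).const_mul 2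
  rw [mul_zero] at h0
  obtain ⟨n2, hn2⟩ := eventually_atTop.1 (h0.eventually (gt_mem_nhds (show 0 < p.2 * η by positivity)))
  refine ⟨n1 + N + n2, fun n hn j => ?_⟩
  rcases le_or_gt (yy K n j) y0 with hc | hc
  · by_contra hcon
    push Not at hcon
    have hmem : p ∈ Bq (n, j) := by
      rw [hBq]
      simp only
      rw [if_pos ⟨by omega, hc⟩]
      exact hcon
    have := hN _ hmem
    simp only at this
    omega
  · have hempty : FT p (yy K n j) (2 * (1/2) ^ n) = ∅ := by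
      rw [Set.eq_empty_iff_forall_notMem]
      rintro t ⟨s, hs1, hs2⟩
      have h1 := hn2 n (by omega)
      have h2 : |(s : ℝ) - t| < η := by
        have : p.2 * |(s : ℝ) - t| < p.2 * η := hs1.trans h1
        exact lt_of_mul_lt_mul_left this hp0.le
      have h3 := hmod (a := s) (b := t) (by rw [Subtype.dist_eq, Real.dist_eq]; exact h2)
      linarith
    rw [hempty, measure_empty, ENNReal.toReal_zero, mul_zero]
    positivity

/-- A set of times of dimension less than one has measure zero. -/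
theorem vol_zero_of_dim {E : Set unitInterval} (h : dimH E < 1) : volume E = 0 := by
  rw [← vol_val' E, ← MeasureTheory.hausdorffMeasure_real]
  have h1 : dimH (Subtype.val '' E : Set ℝ) = dimH E := isometry_subtype_coe.dimH_image _
  have h2 : dimH (Subtype.val '' E : Set ℝ) < ((1 : NNReal) : ℝ≥0∞) := by
    rw [h1]; simpa using h
  have h3 := hausdorffMeasure_of_dimH_lt h2
  simpa using h3

theorem zero : S_ZERO := by
  intro R δ hδ hlim μ hμ
  obtain ⟨c, C, θ0, hc, hC, hθ0, hCθ, hft⟩ := Pool.Agent.Y995.TP.fast_top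
  obtain ⟨⟨c, hc, hL⟩, ⟨C, hC, hU⟩, C2, hC2, hA⟩ := Pool.Agent.Y985.ME.inputs
  obtain ⟨-, -, h3⟩ := final_of hc hC hL hU hC2 hA R
  filter_upwards [h3 δ hδ hlim μ hμ, (hft R).2 δ hδ hlim μ hμ] with p g1 g2
  have h1 : p.1 '' {u : unitInterval | dep R (p.1 u) ≤ 0} ⊆ closure R.D ∩ {z | dep R z ≤ 0} := by
    rintro _ ⟨u, hu, rfl⟩
    exact ⟨g1.2.2.2.1 u, hu⟩
  have h2 := (dimH_mono h1).trans (dimH_bdry R)
  rw [g2.2.1] at h2
  refine vol_zero_of_dim ?_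
  by_contra hcon
  push Not at hcon
  have h4 : (7/4 : ℝ≥0∞) * 1 ≤ 7 / 4 * dimH {u : unitInterval | dep R (p.1 u) ≤ 0} :=
    mul_le_mul_right hcon _
  have h5 : (7/4 : ℝ≥0∞) * 1 ≤ 1 := h4.trans h2
  have e3 : (7 / 4 : ENNReal) = ENNReal.ofReal (7 / 4) := by
    rw [ENNReal.ofReal_div_of_pos (by norm_num)]
    norm_num
  rw [mul_one, e3, ← ENNReal.ofReal_one, ENNReal.ofReal_le_ofReal_iff (by norm_num)] at h5
  norm_num at h5

/-- All together. -/
theorem ev_top : ∃ c C c' C' : ℝ, 0 < c ∧ 0 < C ∧ 0 < c' ∧ 0 < C' ∧ ∀ R : Rect,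
    (∀ δ : ℕ → ℝ, (∀ i, 0 < δ i) → Tendsto δ atTop (𝓝 0) →
      ∃ φ : ℕ → ℕ, StrictMono φ ∧ ∃ μ : ProbabilityMeasure X,
        Tendsto (fun i => R.law (δ (φ i))) atTop (𝓝 μ)) ∧
    ∀ δ : ℕ → ℝ, (∀ i, 0 < δ i) → Tendsto δ atTop (𝓝 0) → ∀ μ : ProbabilityMeasure X,
      Tendsto (fun i => R.law (δ i)) atTop (𝓝 μ) →
      ∀ᵐ p ∂(μ : Measure X), 0 < p.2 ∧ UPF p.1 p.2 C ∧ LOF p.1 p.2 c ∧
        (∀ᵐ t : unitInterval, ∀ᶠ s : unitInterval in 𝓝 t,
          dist (p.1 s) (p.1 t) ≤ C' * phi (p.2 * |(s : ℝ) - t|)) ∧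
        (∀ᵐ t : unitInterval, ∃ᶠ s : unitInterval in 𝓝 t,
          c' * phi (p.2 * |(s : ℝ) - t|) < dist (p.1 s) (p.1 t)) := by
  obtain ⟨c0, C0, θ0, -, -, -, -, hft⟩ := Pool.Agent.Y995.TP.fast_top
  obtain ⟨⟨c, hc, hL⟩, ⟨C, hC, hU⟩, -⟩ := Pool.Agent.Y985.ME.inputs
  have hfm : FM := Pool.Agent.Y490.EV.fm2 Pool.Agent.Y941.EV.t_FM1 Pool.Agent.Y490.EV.fm2p
    Pool.Agent.Y985.ME.s_blk Pool.Agent.Y985.ME.s_fm C hC hU
  obtain ⟨θ, K2, A0, hθ, hK2, hA0, hlat⟩ :=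
    Pool.Agent.Y758.EV.latv manyp Pool.Agent.Z864.EV.badvm c C hc hC hL hU
  obtain ⟨a, B, ha, hB, hftl⟩ := Pool.Agent.Y858.EV.ftlat hfm Pool.Agent.Y988.EV.ftm
  obtain ⟨K, hK, hftae⟩ := ftae Pool.Agent.Y287.EV.ftopen a B ha hB
  obtain ⟨cl, hcl, hlow⟩ := lowbulk sc1 sc2 sc3 θ K2 A0 hθ hK2 hA0
  obtain ⟨Cu, hCu, hup⟩ := updet K hK
  obtain ⟨Cl, hCl, hlilup⟩ := lilup K hK
  obtain ⟨cl', hcl', hlillow⟩ := lillow cl Cu hcl hCu
  refine ⟨cl, Cu, cl', Cl, hcl, hCu, hcl', hCl, fun R => ⟨(hft R).1, ?_⟩⟩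
  intro δ hδ hlim μ hμ
  obtain ⟨A, hA, hLatV⟩ := hlat R
  obtain ⟨A', y0, hA', hy0, hFTL⟩ := hftl R
  filter_upwards [(hft R).2 δ hδ hlim μ hμ,
    aev Pool.Agent.Y287.EV.badvo sc3 θ K2 A0 hθ hK2 hA0 R A hA hLatV δ hδ hlim μ hμ,
    hftae R A' y0 hA' hy0 hFTL δ hδ hlim μ hμ, zero R δ hδ hlim μ hμ] with p g1 g2 g3 g4
  have hp := g1.1
  have hUPF := hup p hp g3
  have hLOF : LOF p.1 p.2 cl := by
    refine lowall p.1 p.2 cl (fun u => dep R (p.1 u)) ((dep_cont R).comp p.1.continuous) hp hcl g4 ?_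
    intro k s t hst hdep η hη
    refine hlow p.1 p.2 (Set.Icc s t) hp ?_ s t hst subset_rfl η hη
    filter_upwards [g2 k] with i hi s' t' hsub hell
    have hlt : s' ≤ t' := by
      by_contra hcon
      push Not at hcon
      have hcon' : (t' : ℝ) < s' := hcon
      have h1 : p.2 * ((t' : ℝ) - s') < 0 := mul_neg_of_pos_of_neg hp (by linarith)
      have h2 : 0 ≤ ell A0 K2 i := by
        have := ww_pos i
        have := EE_pos K2 i
        unfold ell; positivity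
      linarith
    by_contra hcon
    apply hi
    refine ⟨s', t', fun u hu1 hu2 => ?_, hell, hcon⟩
    exact hdep u (hsub ⟨hu1, hu2⟩)
  exact ⟨hp, hUPF, hLOF, hlilup p hp g3, hlillow p.1 p.2 hp hUPF hLOF⟩

end Pool.Agent.X145.EV
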