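import Pool.Agent.Y41.EV.StmD

/-!
Project EV: elementary asymptotics.
-/

set_option autoImplicit false

namespace Pool.Agent.X145.EV

open MeasureTheory Filter Topology Pool.Agent.Y41.EV

/-- `A 2 ^ (-4 n / 7) (log n) ^ (3/7)` is much smaller than `exp (- √ n)`. -/
theorem ev_small (A : ℝ) (hA : 0 < A) : ∀ᶠ n : ℕ in atTop,
    A * ((((1:ℝ)/2) ^ n) ^ (4/7 : ℝ) * Real.log n ^ (3/7 : ℝ)) ≤ Real.exp (-Real.sqrt n) := by
  have h1 : Tendsto (fun n : ℕ => (n : ℝ) ^ 1 * Real.exp (-(1/8) * (n : ℝ))) atTop (𝓝 0) := by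
    have := (Real.tendsto_pow_mul_exp_neg_atTop_nhds_zero 1).comp
      (tendsto_natCast_atTop_atTop (R := ℝ))
    have h2 : Tendsto (fun n : ℕ => ((n:ℝ) * (1/8))) atTop atTop :=
      (tendsto_natCast_atTop_atTop (R := ℝ)).atTop_mul_const (by norm_num)
    have h3 := (Real.tendsto_pow_mul_exp_neg_atTop_nhds_zero 1).comp h2
    have h4 := h3.const_mul 8
    rw [mul_zero] at h4
    refine h4.congr fun n => ?_
    simp only [Function.comp]
    rw [show -((n:ℝ) * (1/8)) = -(1/8) * (n : ℝ) by ring]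
    ring
  have h5 : ∀ᶠ n : ℕ in atTop, (n : ℝ) ^ 1 * Real.exp (-(1/8) * (n : ℝ)) < 1 / A :=
    h1.eventually (gt_mem_nhds (by positivity))
  filter_upwards [h5, eventually_ge_atTop 100] with n hn hn1
  have hn' : (100 : ℝ) ≤ n := by exact_mod_cast hn1
  have e1 : (((1:ℝ)/2) ^ n) ^ (4/7 : ℝ) = Real.exp (-(Real.log 2 * (4/7)) * n) := by
    rw [← Real.rpow_natCast, ← Real.rpow_mul (by norm_num), Real.rpow_def_of_pos (by norm_num),
      one_div, Real.log_inv]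
    congr 1
    ring
  have hlog : Real.log n ^ (3/7 : ℝ) ≤ n := by
    have h6 : Real.log n ≤ n := (Real.log_le_sub_one_of_pos (by linarith)).trans (by linarith)
    have h7 : 0 ≤ Real.log n := Real.log_nonneg (by linarith)
    calc Real.log n ^ (3/7 : ℝ) ≤ (n : ℝ) ^ (3/7 : ℝ) := Real.rpow_le_rpow h7 h6 (by norm_num)
      _ ≤ (n : ℝ) ^ (1 : ℝ) := Real.rpow_le_rpow_of_exponent_le (by linarith) (by norm_num)
      _ = n := Real.rpow_one _
  have hsq : Real.sqrt n ≤ n / 10 := by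
    rw [Real.sqrt_le_left (by positivity)]
    nlinarith
  have hl2 := Real.log_two_gt_d9
  rw [e1]
  have h8 : A * (n : ℝ) ≤ Real.exp ((1/8) * (n : ℝ)) := by
    rw [pow_one] at hn
    have h9 : Real.exp (-(1/8) * (n : ℝ)) * Real.exp ((1/8) * (n : ℝ)) = 1 := by
      rw [← Real.exp_add]; simp
    have h10 : A * ((n : ℝ) * Real.exp (-(1/8) * (n : ℝ))) ≤ 1 := by
      have := mul_le_mul_of_nonneg_left hn.le hA.le
      rwa [mul_one_div, div_self hA.ne'] at this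
    have h11 := mul_le_mul_of_nonneg_right h10 (Real.exp_nonneg ((1/8) * (n : ℝ)))
    calc A * (n : ℝ) = A * (n : ℝ) * (Real.exp (-(1/8) * (n : ℝ)) * Real.exp ((1/8) * (n : ℝ))) := by
          rw [h9, mul_one]
      _ = A * ((n : ℝ) * Real.exp (-(1/8) * (n : ℝ))) * Real.exp ((1/8) * (n : ℝ)) := by ring
      _ ≤ 1 * Real.exp ((1/8) * (n : ℝ)) := h11
      _ = _ := one_mul _
  calc A * (Real.exp (-(Real.log 2 * (4/7)) * n) * Real.log n ^ (3/7 : ℝ))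
      ≤ A * (Real.exp (-(Real.log 2 * (4/7)) * n) * n) := by gcongr
    _ = (A * n) * Real.exp (-(Real.log 2 * (4/7)) * n) := by ring
    _ ≤ Real.exp ((1/8) * (n : ℝ)) * Real.exp (-(Real.log 2 * (4/7)) * n) := by gcongr
    _ = Real.exp ((1/8) * (n : ℝ) + -(Real.log 2 * (4/7)) * n) := by rw [← Real.exp_add]
    _ ≤ Real.exp (-Real.sqrt n) := by
        refine Real.exp_le_exp.mpr ?_
        nlinarith

/-- if `x ≤ exp (-√ n)` then `ll x` is at least `log n / 2` -/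
theorem ll_big {x : ℝ} (hx : 0 < x) {n : ℕ} (hn : 1 ≤ n) (h : x ≤ Real.exp (-Real.sqrt n)) :
    Real.log n / 2 ≤ ll x := by
  have hn' : (1:ℝ) ≤ n := by exact_mod_cast hn
  have h1 : Real.sqrt n ≤ Real.log (1 / x) := by
    rw [one_div, Real.log_inv, le_neg]
    have := Real.log_le_log hx h
    rwa [Real.log_exp] at this
  have h2 : 0 < Real.sqrt n := Real.sqrt_pos.mpr (by linarith)
  have h3 := Real.log_le_log h2 h1
  rw [Real.log_sqrt (by linarith)] at h3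
  exact h3.trans (le_max_right _ _)

/-- `psi` at the scale `n` -/
theorem psi_scale (K : ℝ) (hK : 0 < K) : ∀ᶠ n : ℕ in atTop,
    4 * yy K n 0 ≤ 1 ∧ psi (4 * yy K n 0) ≤ 2 * (4 * K) ^ (7/4 : ℝ) * (1/2) ^ n := by
  filter_upwards [ev_small (4 * K) (by positivity), eventually_ge_atTop 3] with n hn hn1
  have hn' : (3 : ℝ) ≤ n := by exact_mod_cast hn1
  have hlog : 0 < Real.log n := Real.log_pos (by linarith)
  obtain ⟨x, hx⟩ : ∃ x, x = 4 * yy K n 0 := ⟨_, rfl⟩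
  have e : x = 4 * K * ((((1:ℝ)/2) ^ n) ^ (4/7 : ℝ) * Real.log n ^ (3/7 : ℝ)) := by
    rw [hx]; unfold yy; ring
  rw [← hx]
  rw [← e] at hn
  have hx0 : 0 < x := by rw [e]; positivity
  refine ⟨hn.trans (Real.exp_le_one_iff.mpr (by have := Real.sqrt_nonneg (n:ℝ); linarith)), ?_⟩
  have h1 := ll_big hx0 (by omega) hn
  have h2 : x ^ (7/4 : ℝ) = (4 * K) ^ (7/4 : ℝ) * ((1/2) ^ n * Real.log n ^ (3/4 : ℝ)) := by
    rw [e, Real.mul_rpow (show 0 ≤ 4 * K by positivity) (by positivity),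
      Real.mul_rpow (x := (((1:ℝ)/2) ^ n) ^ (4/7 : ℝ)) (by positivity) (by positivity),
      ← Real.rpow_mul (by positivity), ← Real.rpow_mul hlog.le]
    norm_num
  unfold psi
  have hll := ll_pos x
  rw [div_le_iff₀ (by positivity), h2]
  have h3 : Real.log n ^ (3/4 : ℝ) ≤ 2 * ll x ^ (3/4 : ℝ) := by
    calc Real.log n ^ (3/4 : ℝ) ≤ (2 * ll x) ^ (3/4 : ℝ) :=
          Real.rpow_le_rpow hlog.le (by linarith) (by norm_num)
      _ = 2 ^ (3/4 : ℝ) * ll x ^ (3/4 : ℝ) := Real.mul_rpow (by norm_num) hll.le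
      _ ≤ 2 ^ (1 : ℝ) * ll x ^ (3/4 : ℝ) := by
          refine mul_le_mul_of_nonneg_right ?_ (by positivity)
          exact Real.rpow_le_rpow_of_exponent_le (by norm_num) (by norm_num)
      _ = _ := by rw [Real.rpow_one]
  have h4 : 0 < (4 * K) ^ (7/4 : ℝ) * (1/2) ^ n := by positivity
  calc (4 * K) ^ (7/4 : ℝ) * ((1/2) ^ n * Real.log n ^ (3/4 : ℝ))
      = ((4 * K) ^ (7/4 : ℝ) * (1/2) ^ n) * Real.log n ^ (3/4 : ℝ) := by ring
    _ ≤ ((4 * K) ^ (7/4 : ℝ) * (1/2) ^ n) * (2 * ll x ^ (3/4 : ℝ)) := by gcongr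
    _ = _ := by ring

/-- the gauge at the scale `n` -/
theorem phi_scale : ∀ᶠ n : ℕ in atTop, ∀ x : ℝ, (1/2 : ℝ) ^ (n + 1) < x → x ≤ (1/2) ^ n →
    (((1:ℝ)/2) ^ n) ^ (4/7 : ℝ) * Real.log n ^ (3/7 : ℝ) ≤ 2 * phi x := by
  filter_upwards [ev_small 1 one_pos, eventually_ge_atTop 100] with n hn hn1 x hx1 hx2
  have hn' : (100 : ℝ) ≤ n := by exact_mod_cast hn1
  have hlog : 0 < Real.log n := Real.log_pos (by linarith)
  have hx0 : 0 < x := lt_trans (by positivity) hx1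
  have h1 : x ≤ Real.exp (-Real.sqrt n) := by
    refine hx2.trans ?_
    have hsq : Real.sqrt n ≤ n / 10 := by
      rw [Real.sqrt_le_left (by positivity)]
      nlinarith
    have e1 : ((1:ℝ)/2) ^ n = Real.exp (-(Real.log 2) * n) := by
      rw [← Real.rpow_natCast, Real.rpow_def_of_pos (by norm_num), one_div, Real.log_inv]
    rw [e1]
    refine Real.exp_le_exp.mpr ?_
    have := Real.log_two_gt_d9
    nlinarith
  have h2 := ll_big hx0 (by omega) h1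
  have hll := ll_pos x
  have h3 : (((1:ℝ)/2) ^ n) ^ (4/7 : ℝ) ≤ 2 ^ (4/7 : ℝ) * x ^ (4/7 : ℝ) := by
    rw [← Real.mul_rpow (by norm_num) hx0.le]
    refine Real.rpow_le_rpow (by positivity) ?_ (by norm_num)
    rw [pow_succ] at hx1
    linarith
  have h4 : Real.log n ^ (3/7 : ℝ) ≤ 2 ^ (3/7 : ℝ) * ll x ^ (3/7 : ℝ) := by
    rw [← Real.mul_rpow (by norm_num) hll.le]
    exact Real.rpow_le_rpow hlog.le (by linarith) (by norm_num)
  have e2 : (2:ℝ) ^ (4/7 : ℝ) * 2 ^ (3/7 : ℝ) = 2 := by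
    rw [← Real.rpow_add (by norm_num)]
    norm_num
  unfold phi
  calc (((1:ℝ)/2) ^ n) ^ (4/7 : ℝ) * Real.log n ^ (3/7 : ℝ)
      ≤ (2 ^ (4/7 : ℝ) * x ^ (4/7 : ℝ)) * (2 ^ (3/7 : ℝ) * ll x ^ (3/7 : ℝ)) := by
        gcongr
    _ = (2 ^ (4/7 : ℝ) * 2 ^ (3/7 : ℝ)) * (x ^ (4/7 : ℝ) * ll x ^ (3/7 : ℝ)) := by ring
    _ = _ := by rw [e2]

end Pool.Agent.X145.EV
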