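import Pool.Agent.X145.EV.Asy

/-!
Project EV: the upper bound for the `ψ`-sums and the law of the iterated logarithm (upper bound).
-/

set_option autoImplicit false

namespace Pool.Agent.X145.EV

open MeasureTheory Filter Topology Pool.Agent.Y41.EV

/-- non-overlapping intervals inside of a set -/
theorem sum_len_le {n : ℕ} {a b : ℕ → unitInterval} (hab : ∀ i < n, a i ≤ b i)
    (hd : ∀ i j, i < j → j < n → b i ≤ a j) (I : Finset ℕ) (hI : I ⊆ Finset.range n)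
    {V : Set unitInterval} (hV : ∀ i ∈ I, Set.Icc (a i) (b i) ⊆ V) :
    ∑ i ∈ I, ((b i : ℝ) - a i) ≤ (volume V).toReal := by
  have h1 : volume (⋃ i ∈ I, Set.Ioo (a i) (b i)) = ∑ i ∈ I, volume (Set.Ioo (a i) (b i)) := by
    refine measure_biUnion_finset ?_ fun i _ => measurableSet_Ioo
    intro i hi j hj hij
    have hi' := Finset.mem_range.1 (hI hi)
    have hj' := Finset.mem_range.1 (hI hj)
    rw [Function.onFun, Set.disjoint_left]
    intro x hx hy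
    rcases lt_or_gt_of_ne hij with h | h
    · have := hd i j h hj'
      exact absurd (hx.2.trans_le this) (not_lt.mpr hy.1.le)
    · have := hd j i h hi'
      exact absurd (hy.2.trans_le this) (not_lt.mpr hx.1.le)
  have h2 : volume (⋃ i ∈ I, Set.Ioo (a i) (b i)) ≤ volume V := by
    refine measure_mono ?_
    intro x hx
    simp only [Set.mem_iUnion] at hx
    obtain ⟨i, hi, hx⟩ := hx
    exact hV i hi ⟨hx.1.le, hx.2.le⟩
  rw [h1] at h2
  have h3 : ∑ i ∈ I, volume (Set.Ioo (a i) (b i)) =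
      ENNReal.ofReal (∑ i ∈ I, ((b i : ℝ) - a i)) := by
    rw [ENNReal.ofReal_sum_of_nonneg]
    · exact Finset.sum_congr rfl fun i _ => unitInterval.volume_Ioo _ _
    · intro i hi
      have : (a i : ℝ) ≤ b i := hab i (Finset.mem_range.1 (hI hi))
      linarith
  rw [h3] at h2
  exact (ENNReal.ofReal_le_iff_le_toReal (measure_ne_top _ _)).1 h2

theorem pow_tail {n : ℕ} (hn : 4 ≤ n) (j : ℕ) :
    (4:ℝ) ^ j * ((n : ℝ) ^ (1/2 : ℝ) * (n : ℝ) ^ (-(2 * 2 ^ j) : ℝ)) ≤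
      (n : ℝ) ^ (-(3/2) : ℝ) * (1/4) ^ j := by
  have hn' : (4:ℝ) ≤ n := by exact_mod_cast hn
  have hn0 : (0:ℝ) < n := by linarith
  have h1 : (1:ℝ) + j ≤ 2 ^ j := by
    have : j + 1 ≤ 2 ^ j := Nat.lt_two_pow_self
    have h2 : ((j + 1 : ℕ) : ℝ) ≤ ((2 ^ j : ℕ) : ℝ) := by exact_mod_cast this
    push_cast at h2
    linarith
  have h2 : (n : ℝ) ^ (-(2 * 2 ^ j) : ℝ) ≤ (n : ℝ) ^ (-(2 + 2 * (j:ℝ)) : ℝ) :=
    Real.rpow_le_rpow_of_exponent_le (by linarith) (by linarith)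
  have h3 : (n : ℝ) ^ (-(2 + 2 * (j:ℝ)) : ℝ) = (n : ℝ) ^ (-2 : ℝ) * ((n : ℝ) ^ (-2 : ℝ)) ^ j := by
    rw [← Real.rpow_natCast ((n : ℝ) ^ (-2 : ℝ)) j, ← Real.rpow_mul hn0.le, ← Real.rpow_add hn0]
    congr 1
    ring
  have h4 : (n : ℝ) ^ (-2 : ℝ) ≤ 1/16 := by
    have h5 : (n : ℝ) ^ (-2 : ℝ) = 1 / (n:ℝ) ^ 2 := by
      rw [Real.rpow_neg hn0.le, one_div]
      congr 1
      exact_mod_cast Real.rpow_natCast (n : ℝ) 2
    rw [h5]
    have : (4:ℝ) ^ 2 ≤ (n:ℝ) ^ 2 := pow_le_pow_left₀ (by norm_num) hn' 2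
    exact one_div_le_one_div_of_le (by norm_num) (by linarith)
  have h5 : (4:ℝ) ^ j * ((n : ℝ) ^ (-2 : ℝ)) ^ j ≤ (1/4) ^ j := by
    rw [← mul_pow]
    refine pow_le_pow_left₀ (by positivity) (by linarith) j
  have h6 : (n : ℝ) ^ (1/2 : ℝ) * (n : ℝ) ^ (-2 : ℝ) = (n : ℝ) ^ (-(3/2) : ℝ) := by
    rw [← Real.rpow_add hn0]
    norm_num
  calc (4:ℝ) ^ j * ((n : ℝ) ^ (1/2 : ℝ) * (n : ℝ) ^ (-(2 * 2 ^ j) : ℝ))
      ≤ (4:ℝ) ^ j * ((n : ℝ) ^ (1/2 : ℝ) * ((n : ℝ) ^ (-2 : ℝ) * ((n : ℝ) ^ (-2 : ℝ)) ^ j)) := by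
        rw [← h3]
        gcongr
    _ = ((n : ℝ) ^ (1/2 : ℝ) * (n : ℝ) ^ (-2 : ℝ)) * ((4:ℝ) ^ j * ((n : ℝ) ^ (-2 : ℝ)) ^ j) := by
        ring
    _ ≤ _ := by
        rw [h6]
        gcongr

/-- one interval -/
theorem one_int {K : ℝ} (hK : 0 < K) {p : C(unitInterval, ℂ) × ℝ} (hp : 0 < p.2)
    {a b : unitInterval} (hab : a < b) {n : ℕ} (hn4 : 4 ≤ n)
    (h1 : (1/2 : ℝ) ^ (n + 1) < p.2 * ((b : ℝ) - a)) (h2 : p.2 * ((b : ℝ) - a) ≤ (1/2) ^ n)
    (hs : 4 * yy K n 0 ≤ 1 ∧ psi (4 * yy K n 0) ≤ 2 * (4 * K) ^ (7/4 : ℝ) * (1/2) ^ n) :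
    psi (dist (p.1 a) (p.1 b)) ≤ 4 * (4 * K) ^ (7/4 : ℝ) * (p.2 * ((b : ℝ) - a)) ∨
    ∃ j : ℕ, Set.Icc a b ⊆ FT p (yy K n j) (2 * (1/2) ^ n) ∧
      psi (dist (p.1 a) (p.1 b)) ≤
        (4 * (8 * K) ^ (7/4 : ℝ)) * (4 ^ j * (n : ℝ) ^ (1/2 : ℝ)) * (p.2 * ((b : ℝ) - a)) := by
  have hn' : (4 : ℝ) ≤ n := by exact_mod_cast hn4
  have hlog : 0 < Real.log n := Real.log_pos (by linarith)
  obtain ⟨d, hd⟩ : ∃ d, d = dist (p.1 a) (p.1 b) := ⟨_, rfl⟩
  obtain ⟨h, hh⟩ : ∃ h, h = p.2 * ((b : ℝ) - a) := ⟨_, rfl⟩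
  have hd0 : 0 ≤ d := by rw [hd]; exact dist_nonneg
  rw [← hd, ← hh]
  rw [← hh] at h1 h2
  have hw : (1/2 : ℝ) ^ n < 2 * h := by rw [pow_succ] at h1; linarith
  have hwp : (0:ℝ) < (1/2) ^ n := by positivity
  have hhp : 0 < h := by linarith
  obtain ⟨y0, hy0⟩ : ∃ y0, y0 = yy K n 0 := ⟨_, rfl⟩
  have hy00 : 0 < y0 := by rw [hy0]; unfold yy; positivity
  have hyj : ∀ j, yy K n j = 2 ^ j * y0 := by intro j; rw [hy0]; unfold yy; ring
  rcases le_or_gt d (4 * y0) with hle | hgt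
  · left
    rw [← hy0] at hs
    calc psi d ≤ psi (4 * y0) := psi_mono hd0 hle hs.1
      _ ≤ 2 * (4 * K) ^ (7/4 : ℝ) * (1/2) ^ n := hs.2
      _ ≤ 2 * (4 * K) ^ (7/4 : ℝ) * (2 * h) := by gcongr
      _ = _ := by ring
  · right
    have hz : 1 ≤ d / (4 * y0) := by rw [le_div_iff₀ (by positivity)]; linarith
    obtain ⟨j, hj1, hj2⟩ := exists_nat_pow_near hz (show (1:ℝ) < 2 by norm_num)
    rw [le_div_iff₀ (by positivity)] at hj1
    rw [div_lt_iff₀ (by positivity)] at hj2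
    have hdp : 0 < d := by linarith
    refine ⟨j, ?_, ?_⟩
    · intro t ht
      have hyj' := hyj j
      have hlt : 2 * yy K n j < d := by
        rw [hyj']
        have : 0 < (2:ℝ) ^ j * y0 := by positivity
        linarith
      have hta : (a : ℝ) ≤ t := ht.1
      have htb : (t : ℝ) ≤ b := ht.2
      rcases le_or_gt (dist (p.1 a) (p.1 t)) (yy K n j) with h3 | h3
      · refine ⟨b, ?_, ?_⟩
        · rw [abs_of_nonneg (by linarith)]
          have : p.2 * ((b : ℝ) - t) ≤ h := by rw [hh]; gcongr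
          linarith
        · have := dist_triangle (p.1 a) (p.1 t) (p.1 b)
          rw [dist_comm (p.1 b)]
          rw [← hd] at this
          linarith
      · refine ⟨a, ?_, h3⟩
        rw [abs_sub_comm, abs_of_nonneg (by linarith)]
        have : p.2 * ((t : ℝ) - a) ≤ h := by rw [hh]; gcongr
        linarith
    · have h4 : d ≤ 2 ^ j * (8 * y0) := by rw [pow_succ] at hj2; linarith
      have h5 : y0 ^ (7/4 : ℝ) = K ^ (7/4 : ℝ) * ((1/2) ^ n * Real.log n ^ (3/4 : ℝ)) := by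
        rw [hy0]
        unfold yy
        rw [pow_zero, one_mul, Real.mul_rpow hK.le (by positivity),
          Real.mul_rpow (x := (((1:ℝ)/2) ^ n) ^ (4/7 : ℝ)) (by positivity) (by positivity),
          ← Real.rpow_mul (by positivity), ← Real.rpow_mul hlog.le]
        norm_num
      have h6 : ((2:ℝ) ^ j) ^ (7/4 : ℝ) ≤ 4 ^ j := by
        rw [← Real.rpow_natCast, ← Real.rpow_mul (by norm_num), mul_comm (j : ℝ) (7/4),
          Real.rpow_mul (by norm_num), Real.rpow_natCast]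
        refine pow_le_pow_left₀ (by positivity) ?_ j
        calc (2:ℝ) ^ (7/4 : ℝ) ≤ 2 ^ (2 : ℝ) :=
              Real.rpow_le_rpow_of_exponent_le (by norm_num) (by norm_num)
          _ = 4 := by norm_num
      have h7 : Real.log n ^ (3/4 : ℝ) ≤ 2 * (n : ℝ) ^ (1/2 : ℝ) := by
        have h8 : Real.log n ≤ 2 * (n : ℝ) ^ (1/2 : ℝ) := by
          have := Real.log_le_rpow_div (show (0:ℝ) ≤ n by linarith) (show (0:ℝ) < 1/2 by norm_num)
          calc Real.log n ≤ (n:ℝ) ^ (1/2 : ℝ) / (1/2) := this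
            _ = _ := by ring
        have h9 : 1 ≤ 2 * (n : ℝ) ^ (1/2 : ℝ) := by
          have := Real.one_le_rpow (show (1:ℝ) ≤ n by linarith) (show (0:ℝ) ≤ 1/2 by norm_num)
          linarith
        calc Real.log n ^ (3/4 : ℝ) ≤ (2 * (n : ℝ) ^ (1/2 : ℝ)) ^ (3/4 : ℝ) :=
              Real.rpow_le_rpow hlog.le h8 (by norm_num)
          _ ≤ (2 * (n : ℝ) ^ (1/2 : ℝ)) ^ (1 : ℝ) :=
              Real.rpow_le_rpow_of_exponent_le h9 (by norm_num)
          _ = _ := Real.rpow_one _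
      calc psi d ≤ d ^ (7/4 : ℝ) := psi_le hd0
        _ ≤ (2 ^ j * (8 * y0)) ^ (7/4 : ℝ) := Real.rpow_le_rpow hd0 h4 (by norm_num)
        _ = ((2:ℝ) ^ j) ^ (7/4 : ℝ) * (8 ^ (7/4 : ℝ) * y0 ^ (7/4 : ℝ)) := by
            rw [Real.mul_rpow (by positivity) (by positivity),
              Real.mul_rpow (by norm_num) hy00.le]
        _ = ((2:ℝ) ^ j) ^ (7/4 : ℝ) * ((8 * K) ^ (7/4 : ℝ) *
              ((1/2) ^ n * Real.log n ^ (3/4 : ℝ))) := by
            rw [h5, Real.mul_rpow (by norm_num) hK.le]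
            ring
        _ ≤ 4 ^ j * ((8 * K) ^ (7/4 : ℝ) * ((2 * h) * (2 * (n : ℝ) ^ (1/2 : ℝ)))) := by
            gcongr
        _ = _ := by ring

theorem tail_small : ∀ e : ℝ, 0 < e → ∃ n1 : ℕ, ∀ m : ℕ,
    ∑ n ∈ Finset.Ico n1 m, (n : ℝ) ^ (-(3/2) : ℝ) ≤ e := by
  intro e he
  have hs : Summable (fun n : ℕ => (n : ℝ) ^ (-(3/2) : ℝ)) :=
    Real.summable_nat_rpow.mpr (by norm_num)
  have h1 := hs.hasSum
  have h2 := (h1.tendsto_sum_nat).eventually (lt_mem_nhds (show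
    (∑' n : ℕ, (n : ℝ) ^ (-(3/2) : ℝ)) - e < ∑' n : ℕ, (n : ℝ) ^ (-(3/2) : ℝ) by linarith))
  rw [eventually_atTop] at h2
  obtain ⟨n1, hn1⟩ := h2
  refine ⟨n1, fun m => ?_⟩
  rcases le_total n1 m with h | h
  · have h3 := hn1 n1 le_rfl
    have h4 : ∑ n ∈ Finset.range m, (n : ℝ) ^ (-(3/2) : ℝ) ≤ ∑' n : ℕ, (n : ℝ) ^ (-(3/2) : ℝ) :=
      hs.sum_le_tsum _ (fun i _ => by positivity)
    rw [Finset.sum_Ico_eq_sub _ h]
    linarith
  · rw [Finset.Ico_eq_empty (by omega), Finset.sum_empty]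
    exact he.le

theorem updet : S_UPDET := by
  classical
  intro K hK
  refine ⟨4 * (4 * K) ^ (7/4 : ℝ), by positivity, ?_⟩
  intro p hp hF ε hε
  obtain ⟨n0, hn0⟩ := hF
  obtain ⟨G, hG⟩ : ∃ G, G = 4 * (8 * K) ^ (7/4 : ℝ) := ⟨_, rfl⟩
  have hG0 : 0 < G := by rw [hG]; positivity
  obtain ⟨n2, hn2⟩ := tail_small (ε / (2 * G)) (by positivity)
  have hps := psi_scale K hK
  rw [eventually_atTop] at hps
  obtain ⟨n3, hn3⟩ := hps
  obtain ⟨N, hN⟩ : ∃ N, N = n0 + n2 + n3 + 4 := ⟨_, rfl⟩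
  have hη : 0 < (1/2 : ℝ) ^ N / p.2 := by positivity
  refine ⟨(1/2 : ℝ) ^ N / p.2, hη, ?_⟩
  intro n a b hab hd
  have hab' : ∀ i < n, a i ≤ b i := fun i hi => (hab i hi).1
  -- the classification
  have hcl : ∀ i, i < n → a i < b i → ∃ m : ℕ, N ≤ m ∧
      (psi (dist (p.1 (a i)) (p.1 (b i))) ≤
        4 * (4 * K) ^ (7/4 : ℝ) * (p.2 * ((b i : ℝ) - a i)) ∨
      ∃ j : ℕ, Set.Icc (a i) (b i) ⊆ FT p (yy K m j) (2 * (1/2) ^ m) ∧
        psi (dist (p.1 (a i)) (p.1 (b i))) ≤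
          G * (4 ^ j * (m : ℝ) ^ (1/2 : ℝ)) * (p.2 * ((b i : ℝ) - a i))) := by
    intro i hi hlt
    have hlt' : (a i : ℝ) < b i := hlt
    have hpos : 0 < p.2 * ((b i : ℝ) - a i) := mul_pos hp (by linarith)
    have hle : p.2 * ((b i : ℝ) - a i) ≤ (1/2) ^ N := by
      have := mul_le_mul_of_nonneg_left (hab i hi).2 hp.le
      rwa [mul_div_cancel₀ _ hp.ne'] at this
    obtain ⟨m, hm1, hm2⟩ := exists_nat_pow_near_of_lt_one hpos
      (hle.trans (pow_le_one₀ (by norm_num) (by norm_num))) (show (0:ℝ) < 1/2 by norm_num)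
      (by norm_num)
    have hNm : N ≤ m := by
      by_contra hcon
      have : ((1:ℝ)/2) ^ N ≤ (1/2) ^ (m + 1) :=
        pow_le_pow_of_le_one (by norm_num) (by norm_num) (by omega)
      linarith
    refine ⟨m, hNm, ?_⟩
    rw [hG]
    exact one_int hK hp hlt (by omega) hm1 hm2 (hn3 m (by omega))
  -- good and bad
  obtain ⟨Gd, hGd⟩ : ∃ Gd : Finset ℕ, Gd = (Finset.range n).filter (fun i =>
    psi (dist (p.1 (a i)) (p.1 (b i))) ≤ 4 * (4 * K) ^ (7/4 : ℝ) * (p.2 * ((b i : ℝ) - a i))) :=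
    ⟨_, rfl⟩
  obtain ⟨Bd, hBd⟩ : ∃ Bd : Finset ℕ, Bd = (Finset.range n).filter (fun i => ¬
    psi (dist (p.1 (a i)) (p.1 (b i))) ≤ 4 * (4 * K) ^ (7/4 : ℝ) * (p.2 * ((b i : ℝ) - a i))) :=
    ⟨_, rfl⟩
  have hsplit : ∑ i ∈ Finset.range n, psi (dist (p.1 (a i)) (p.1 (b i))) =
      ∑ i ∈ Gd, psi (dist (p.1 (a i)) (p.1 (b i))) +
        ∑ i ∈ Bd, psi (dist (p.1 (a i)) (p.1 (b i))) := by
    rw [hGd, hBd, Finset.sum_filter_add_sum_filter_not]
  have hlen : ∀ i ∈ Finset.range n, 0 ≤ p.2 * ((b i : ℝ) - a i) := by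
    intro i hi
    have : (a i : ℝ) ≤ b i := hab' i (Finset.mem_range.1 hi)
    exact mul_nonneg hp.le (by linarith)
  have hgood : ∑ i ∈ Gd, psi (dist (p.1 (a i)) (p.1 (b i))) ≤
      4 * (4 * K) ^ (7/4 : ℝ) * p.2 * ∑ i ∈ Finset.range n, ((b i : ℝ) - a i) := by
    calc ∑ i ∈ Gd, psi (dist (p.1 (a i)) (p.1 (b i)))
        ≤ ∑ i ∈ Gd, 4 * (4 * K) ^ (7/4 : ℝ) * (p.2 * ((b i : ℝ) - a i)) := by
          refine Finset.sum_le_sum fun i hi => ?_
          rw [hGd, Finset.mem_filter] at hi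
          exact hi.2
      _ ≤ ∑ i ∈ Finset.range n, 4 * (4 * K) ^ (7/4 : ℝ) * (p.2 * ((b i : ℝ) - a i)) := by
          refine Finset.sum_le_sum_of_subset_of_nonneg ?_ fun i hi _ => ?_
          · rw [hGd]; exact Finset.filter_subset _ _
          · exact mul_nonneg (by positivity) (hlen i hi)
      _ = _ := by rw [← Finset.mul_sum, ← Finset.mul_sum]; ring
  -- the bad intervals
  have hbadc : ∀ i ∈ Bd, ∃ m j : ℕ, N ≤ m ∧
      Set.Icc (a i) (b i) ⊆ FT p (yy K m j) (2 * (1/2) ^ m) ∧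
        psi (dist (p.1 (a i)) (p.1 (b i))) ≤
          G * (4 ^ j * (m : ℝ) ^ (1/2 : ℝ)) * (p.2 * ((b i : ℝ) - a i)) := by
    intro i hi
    rw [hBd, Finset.mem_filter, Finset.mem_range] at hi
    obtain ⟨hi, hnot⟩ := hi
    have hlt : a i < b i := by
      rcases (hab' i hi).eq_or_lt with h | h
      · exfalso
        apply hnot
        rw [h, dist_self, psi_zero, sub_self, mul_zero, mul_zero]
      · exact h
    obtain ⟨m, hm, hor⟩ := hcl i hi hlt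
    rcases hor with h | ⟨j, h1, h2⟩
    · exact absurd h hnot
    · exact ⟨m, j, hm, h1, h2⟩
  choose! M J hM hJ1 hJ2 using hbadc
  obtain ⟨A, hA⟩ : ∃ A : ℕ, ∀ i ∈ Bd, M i < A := by
    refine ⟨Bd.sup M + 1, fun i hi => ?_⟩
    have := Finset.le_sup (f := M) hi
    omega
  obtain ⟨B, hB⟩ : ∃ B : ℕ, ∀ i ∈ Bd, J i < B := by
    refine ⟨Bd.sup J + 1, fun i hi => ?_⟩
    have := Finset.le_sup (f := J) hi
    omega
  have hbad : ∑ i ∈ Bd, psi (dist (p.1 (a i)) (p.1 (b i))) ≤ ε := by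
    have h1 : ∑ i ∈ Bd, psi (dist (p.1 (a i)) (p.1 (b i))) ≤
        ∑ i ∈ Bd, G * (4 ^ J i * (M i : ℝ) ^ (1/2 : ℝ)) * (p.2 * ((b i : ℝ) - a i)) :=
      Finset.sum_le_sum fun i hi => hJ2 i hi
    have h2 : ∑ i ∈ Bd, G * (4 ^ J i * (M i : ℝ) ^ (1/2 : ℝ)) * (p.2 * ((b i : ℝ) - a i)) =
        ∑ q ∈ Finset.Ico N A ×ˢ Finset.range B, ∑ i ∈ Bd.filter (fun i => (M i, J i) = q),
          G * (4 ^ J i * (M i : ℝ) ^ (1/2 : ℝ)) * (p.2 * ((b i : ℝ) - a i)) := by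
      rw [Finset.sum_fiberwise_of_maps_to]
      intro i hi
      rw [Finset.mem_product, Finset.mem_Ico, Finset.mem_range]
      exact ⟨⟨hM i hi, hA i hi⟩, hB i hi⟩
    have h3 : ∀ q ∈ Finset.Ico N A ×ˢ Finset.range B,
        ∑ i ∈ Bd.filter (fun i => (M i, J i) = q),
          G * (4 ^ J i * (M i : ℝ) ^ (1/2 : ℝ)) * (p.2 * ((b i : ℝ) - a i)) ≤
        G * ((q.1 : ℝ) ^ (-(3/2) : ℝ) * (1/4) ^ q.2) := by
      rintro ⟨m, j⟩ hq
      rw [Finset.mem_product, Finset.mem_Ico, Finset.mem_range] at hq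
      obtain ⟨⟨hm1, hm2⟩, hj⟩ := hq
      simp only at hm1 hm2 hj ⊢
      have h4 : ∑ i ∈ Bd.filter (fun i => (M i, J i) = (m, j)), ((b i : ℝ) - a i) ≤
          (volume (FT p (yy K m j) (2 * (1/2) ^ m))).toReal := by
        refine sum_len_le hab' hd _ ?_ ?_
        · refine (Finset.filter_subset _ _).trans ?_
          rw [hBd]
          exact Finset.filter_subset _ _
        · intro i hi
          rw [Finset.mem_filter, Prod.mk.injEq] at hi
          have := hJ1 i hi.1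
          rwa [hi.2.1, hi.2.2] at this
      have h5 := hn0 m (by omega) j
      have h6 : ∑ i ∈ Bd.filter (fun i => (M i, J i) = (m, j)),
          G * (4 ^ J i * (M i : ℝ) ^ (1/2 : ℝ)) * (p.2 * ((b i : ℝ) - a i)) =
          G * (4 ^ j * (m : ℝ) ^ (1/2 : ℝ)) * (p.2 *
            ∑ i ∈ Bd.filter (fun i => (M i, J i) = (m, j)), ((b i : ℝ) - a i)) := by
        rw [Finset.mul_sum, Finset.mul_sum]
        refine Finset.sum_congr rfl fun i hi => ?_
        rw [Finset.mem_filter, Prod.mk.injEq] at hi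
        rw [hi.2.1, hi.2.2]
      rw [h6]
      calc G * (4 ^ j * (m : ℝ) ^ (1/2 : ℝ)) * (p.2 *
            ∑ i ∈ Bd.filter (fun i => (M i, J i) = (m, j)), ((b i : ℝ) - a i))
          ≤ G * (4 ^ j * (m : ℝ) ^ (1/2 : ℝ)) * (m : ℝ) ^ (-(2 * 2 ^ j) : ℝ) := by
            refine mul_le_mul_of_nonneg_left ?_ (by positivity)
            exact (mul_le_mul_of_nonneg_left h4 hp.le).trans h5
        _ = G * (4 ^ j * ((m : ℝ) ^ (1/2 : ℝ) * (m : ℝ) ^ (-(2 * 2 ^ j) : ℝ))) := by ring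
        _ ≤ _ := by
            refine mul_le_mul_of_nonneg_left ?_ hG0.le
            exact pow_tail (by omega) j
    have h4 : ∑ q ∈ Finset.Ico N A ×ˢ Finset.range B,
        G * ((q.1 : ℝ) ^ (-(3/2) : ℝ) * (1/4) ^ q.2) ≤ ε := by
      rw [← Finset.mul_sum, Finset.sum_product]
      simp only
      simp_rw [← Finset.mul_sum]
      rw [← Finset.sum_mul]
      have h5 : ∑ i ∈ Finset.range B, ((1:ℝ)/4) ^ i ≤ 2 := by
        have := (summable_geometric_of_lt_one (show (0:ℝ) ≤ 1/4 by norm_num)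
          (by norm_num)).sum_le_tsum (Finset.range B) (fun i _ => by positivity)
        rw [tsum_geometric_of_lt_one (by norm_num) (by norm_num)] at this
        refine this.trans (by norm_num)
      have h6 : ∑ m ∈ Finset.Ico N A, (m : ℝ) ^ (-(3/2) : ℝ) ≤ ε / (2 * G) := by
        refine le_trans ?_ (hn2 A)
        refine Finset.sum_le_sum_of_subset_of_nonneg ?_ fun i _ _ => by positivity
        exact Finset.Ico_subset_Ico (by omega) le_rfl
      have h7 : 0 ≤ ∑ m ∈ Finset.Ico N A, (m : ℝ) ^ (-(3/2) : ℝ) :=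
        Finset.sum_nonneg fun i _ => by positivity
      have h8 : 0 ≤ ∑ i ∈ Finset.range B, ((1:ℝ)/4) ^ i :=
        Finset.sum_nonneg fun i _ => by positivity
      calc G * ((∑ m ∈ Finset.Ico N A, (m : ℝ) ^ (-(3/2) : ℝ)) * ∑ i ∈ Finset.range B, ((1:ℝ)/4) ^ i)
          ≤ G * (ε / (2 * G) * 2) := by gcongr
        _ = ε := by field_simp
    calc _ ≤ _ := h1
      _ = _ := h2
      _ ≤ _ := Finset.sum_le_sum h3
      _ ≤ ε := h4
  rw [hsplit]
  linarith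

theorem lilup : S_LILUP := by
  intro K hK
  refine ⟨2 * K, by positivity, ?_⟩
  intro p hp hF
  obtain ⟨n0, hn0⟩ := hF
  have hsum : ∑' n : ℕ, volume (FT p (yy K (n + n0) 0) (2 * (1/2) ^ (n + n0))) ≠ ⊤ := by
    have h1 : ∀ n : ℕ, volume (FT p (yy K (n + n0) 0) (2 * (1/2) ^ (n + n0))) ≤
        ENNReal.ofReal (1 / p.2 * (1 / ((n + n0 : ℕ) : ℝ) ^ 2)) := by
      intro n
      have h2 := hn0 (n + n0) (by omega) 0
      have e : (((n + n0 : ℕ) : ℝ)) ^ (-(2 * 2 ^ 0) : ℝ) = 1 / ((n + n0 : ℕ) : ℝ) ^ 2 := by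
        rw [pow_zero, mul_one, Real.rpow_neg (Nat.cast_nonneg _), one_div]
        congr 1
        exact_mod_cast Real.rpow_natCast (((n + n0 : ℕ) : ℝ)) 2
      rw [e] at h2
      rw [← ENNReal.ofReal_toReal (measure_ne_top volume
        (FT p (yy K (n + n0) 0) (2 * (1/2) ^ (n + n0))))]
      refine ENNReal.ofReal_le_ofReal ?_
      rw [one_div_mul_eq_div, le_div_iff₀ hp, mul_comm]
      exact h2
    have h4 : Summable (fun j : ℕ => 1 / p.2 * (1 / ((j + n0 : ℕ) : ℝ) ^ 2)) := by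
      have h5 : Summable (fun j : ℕ => 1 / (j : ℝ) ^ 2) :=
        Real.summable_one_div_nat_pow.mpr (by norm_num)
      exact ((summable_nat_add_iff n0).2 h5).mul_left (1 / p.2)
    refine ne_top_of_le_ne_top ?_ (ENNReal.tsum_le_tsum h1)
    rw [← ENNReal.ofReal_tsum_of_nonneg (fun j => by positivity) h4]
    exact ENNReal.ofReal_ne_top
  filter_upwards [ae_eventually_notMem hsum] with t ht
  have hph := phi_scale
  rw [eventually_atTop] at ht hph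
  obtain ⟨n1, hn1⟩ := ht
  obtain ⟨n2, hn2⟩ := hph
  obtain ⟨N, hN⟩ : ∃ N, N = n0 + n1 + n2 := ⟨_, rfl⟩
  have hnb : ∀ᶠ s : unitInterval in 𝓝 t, p.2 * |(s : ℝ) - t| < (1/2) ^ N := by
    have hc : Continuous (fun s : unitInterval => p.2 * |(s : ℝ) - t|) := by fun_prop
    have := hc.tendsto t
    rw [sub_self, abs_zero, mul_zero] at this
    exact this.eventually (gt_mem_nhds (by positivity))
  filter_upwards [hnb] with s hs
  rcases eq_or_ne s t with h | h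
  · rw [h, dist_self]
    unfold phi
    have := ll_pos (p.2 * |(t : ℝ) - t|)
    have h2 : 0 ≤ p.2 * |(t : ℝ) - t| := by positivity
    positivity
  · have h1 : 0 < |(s : ℝ) - t| := by
      rw [abs_pos, sub_ne_zero]
      exact fun h2 => h (Subtype.ext h2)
    obtain ⟨x, hx⟩ : ∃ x, x = p.2 * |(s : ℝ) - t| := ⟨_, rfl⟩
    have hx0 : 0 < x := by rw [hx]; positivity
    rw [← hx] at hs ⊢
    obtain ⟨m, hm1, hm2⟩ := exists_nat_pow_near_of_lt_one hx0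
      (hs.le.trans (pow_le_one₀ (by norm_num) (by norm_num))) (show (0:ℝ) < 1/2 by norm_num)
      (by norm_num)
    have hNm : N ≤ m := by
      by_contra hcon
      have : ((1:ℝ)/2) ^ N ≤ (1/2) ^ (m + 1) :=
        pow_le_pow_of_le_one (by norm_num) (by norm_num) (by omega)
      linarith
    have h2 := hn1 (m - n0) (by omega)
    rw [Nat.sub_add_cancel (by omega)] at h2
    have h3 : dist (p.1 s) (p.1 t) ≤ yy K m 0 := by
      by_contra hcon
      push Not at hcon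
      apply h2
      refine ⟨s, ?_, hcon⟩
      rw [← hx]
      have : (0:ℝ) < (1/2) ^ m := by positivity
      linarith
    have h4 := hn2 m (by omega) x hm1 hm2
    calc dist (p.1 s) (p.1 t) ≤ yy K m 0 := h3
      _ = K * ((((1:ℝ)/2) ^ m) ^ (4/7 : ℝ) * Real.log m ^ (3/7 : ℝ)) := by
          unfold yy; ring
      _ ≤ K * (2 * phi x) := by gcongr
      _ = _ := by ring

end Pool.Agent.X145.EV
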