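import Pool.Agent.X145.EV.Ae

/-!
The variation of a curve with respect to a gauge function.
-/

set_option autoImplicit false

namespace Pool.Agent.X145.EV

open MeasureTheory Filter Topology Pool.Agent.Y41.EV
open scoped ENNReal

/-- The variation of the curve `f` on `[s, t]` with respect to the gauge `g`: the limit, as
`η → 0`, of the supremum of the sums `∑ g (|f (τ i) - f (τ (i + 1))|)` over the partitions
`s = τ 0 ≤ τ 1 ≤ ... ≤ τ n = t` of mesh at most `η`. -/
noncomputable def variation (g : ℝ → ℝ) (f : C(unitInterval, ℂ)) (s t : unitInterval) : ℝ≥0∞ :=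
  ⨅ η : ℝ, ⨅ _ : 0 < η, ⨆ n : ℕ, ⨆ τ : ℕ → unitInterval,
    ⨆ _ : Monotone τ ∧ τ 0 = s ∧ τ n = t ∧ ∀ i < n, (τ (i + 1) : ℝ) - τ i ≤ η,
    ENNReal.ofReal (∑ i ∈ Finset.range n, g (dist (f (τ i)) (f (τ (i + 1)))))

theorem le_variation {g : ℝ → ℝ} {f : C(unitInterval, ℂ)} {s t : unitInterval} {x : ℝ≥0∞}
    (h : ∀ η : ℝ, 0 < η → ∀ y : ℝ, ENNReal.ofReal y < x → ∃ (n : ℕ) (τ : ℕ → unitInterval),
      (Monotone τ ∧ τ 0 = s ∧ τ n = t ∧ ∀ i < n, (τ (i + 1) : ℝ) - τ i ≤ η) ∧
      y ≤ ∑ i ∈ Finset.range n, g (dist (f (τ i)) (f (τ (i + 1))))) :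
    x ≤ variation g f s t := by
  unfold variation
  refine le_iInf₂ fun η hη => ?_
  refine le_of_forall_lt fun z hz => ?_
  obtain ⟨w, hw1, hw2⟩ := exists_between hz
  have hwt : w ≠ ⊤ := (hw2.trans_le le_top).ne
  obtain ⟨n, τ, h1, h2⟩ := h η hη w.toReal (by rwa [ENNReal.ofReal_toReal hwt])
  refine lt_of_lt_of_le hw1 ?_
  refine le_iSup_of_le n (le_iSup_of_le τ (le_iSup_of_le h1 ?_))
  rw [← ENNReal.ofReal_toReal hwt]
  exact ENNReal.ofReal_le_ofReal h2

theorem variation_le {g : ℝ → ℝ} {f : C(unitInterval, ℂ)} {s t : unitInterval} {x : ℝ}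
    (h : ∀ ε : ℝ, 0 < ε → ∃ η : ℝ, 0 < η ∧ ∀ (n : ℕ) (τ : ℕ → unitInterval),
      (Monotone τ ∧ τ 0 = s ∧ τ n = t ∧ ∀ i < n, (τ (i + 1) : ℝ) - τ i ≤ η) →
      ∑ i ∈ Finset.range n, g (dist (f (τ i)) (f (τ (i + 1)))) ≤ x + ε) :
    variation g f s t ≤ ENNReal.ofReal x := by
  refine ENNReal.le_of_forall_pos_le_add fun ε hε _ => ?_
  obtain ⟨η, hη, h1⟩ := h ε (by exact_mod_cast hε)
  unfold variation
  refine (iInf₂_le η hη).trans ?_
  refine iSup_le fun n => iSup_le fun τ => iSup_le fun hτ => ?_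
  refine (ENNReal.ofReal_le_ofReal (h1 n τ hτ)).trans ?_
  refine (ENNReal.ofReal_add_le).trans ?_
  rw [ENNReal.ofReal_coe_nnreal]

/-- The variation is a function of the curve modulo reparametrisation. -/
theorem variation_comp (g : ℝ → ℝ) (f : C(unitInterval, ℂ)) (h : unitInterval ≃o unitInterval)
    (s t : unitInterval) :
    variation g (f.comp ⟨h, h.continuous⟩) s t = variation g f (h s) (h t) := by
  have key : ∀ (f : C(unitInterval, ℂ)) (h : unitInterval ≃o unitInterval) (s t : unitInterval),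
      variation g (f.comp ⟨h, h.continuous⟩) s t ≤ variation g f (h s) (h t) := by
    intro f h s t
    refine le_iInf₂ fun η hη => ?_
    obtain ⟨η', hη', hmod⟩ := Metric.uniformContinuous_iff.1
      (CompactSpace.uniformContinuous_of_continuous h.continuous) η hη
    refine (iInf₂_le (η' / 2) (by positivity)).trans ?_
    refine iSup_le fun n => iSup_le fun τ => iSup_le fun hτ => ?_
    obtain ⟨h1, h2, h3, h4⟩ := hτ
    refine le_iSup_of_le n (le_iSup_of_le (fun i => h (τ i)) (le_iSup_of_le ?_ ?_))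
    · refine ⟨fun i j hij => h.monotone (h1 hij), by simp only [h2], by simp only [h3], ?_⟩
      intro i hi
      have h5 : (τ i : ℝ) ≤ τ (i + 1) := h1 (Nat.le_succ i)
      have h6 := hmod (a := τ (i + 1)) (b := τ i) (by
        rw [Subtype.dist_eq, Real.dist_eq, abs_of_nonneg (by linarith)]
        have := h4 i hi
        linarith)
      rw [Subtype.dist_eq, Real.dist_eq] at h6
      exact (le_abs_self _).trans h6.le
    · exact le_rfl
  refine le_antisymm (key f h s t) ?_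
  have h1 := key (f.comp ⟨h, h.continuous⟩) h.symm (h s) (h t)
  rw [OrderIso.symm_apply_apply, OrderIso.symm_apply_apply] at h1
  have h2 : (f.comp ⟨h, h.continuous⟩).comp ⟨h.symm, h.symm.continuous⟩ = f := by
    ext x
    simp
  rwa [h2] at h1

theorem psi_pos {x : ℝ} (hx : 0 < x) : 0 < psi x := by
  have := ll_pos x
  unfold psi; positivity

/-- consequences for `ψ` and other gauges -/
theorem var_of {f : C(unitInterval, ℂ)} {T c C : ℝ}
    (hU : UPF f T C) (hL : LOF f T c) {s t : unitInterval} (hst : s ≤ t) :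
    ENNReal.ofReal (c * T * ((t : ℝ) - s)) ≤ variation psi f s t ∧
      variation psi f s t ≤ ENNReal.ofReal (C * T * ((t : ℝ) - s)) := by
  have hst' : (s : ℝ) ≤ t := hst
  constructor
  · refine le_variation fun η hη y hy => ?_
    rcases le_or_gt y 0 with h0 | h0
    · obtain ⟨n, τ, h1, h2, h3, h4, h5⟩ := VG.triv f hη hst
      exact ⟨n, τ, ⟨h1, h2, h3, h4⟩, h0.trans h5⟩
    have hy' : y < c * T * ((t : ℝ) - s) := by
      rw [ENNReal.ofReal_lt_ofReal_iff_of_nonneg h0.le] at hy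
      exact hy
    obtain ⟨n, τ, h1, h2, h3, h4, h5⟩ := hL s t hst η hη y hy'
    exact ⟨n, τ, ⟨h1, h2, h3, h4⟩, h5⟩
  · refine variation_le fun ε hε => ?_
    obtain ⟨η, hη, h1⟩ := hU ε hε
    refine ⟨η, hη, fun n τ hτ => ?_⟩
    obtain ⟨g1, g2, g3, g4⟩ := hτ
    have h2 := h1 n τ (fun i => τ (i + 1)) (fun i hi => ⟨g1 (Nat.le_succ i), g4 i hi⟩)
      (fun i j hij _ => g1 hij)
    rwa [Finset.sum_range_sub (fun i => (τ i : ℝ)), g3, g2] at h2

/-- gauges much larger than `ψ` -/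
theorem var_top {f : C(unitInterval, ℂ)} {T c : ℝ} (hT : 0 < T) (hc : 0 < c)
    (hL : LOF f T c) {g : ℝ → ℝ} (hg0 : g 0 = 0)
    (hg : Tendsto (fun x => g x / psi x) (𝓝[>] 0) atTop) {s t : unitInterval} (hst : s < t) :
    variation g f s t = ⊤ := by
  have hst' : (s : ℝ) < t := hst
  rw [eq_top_iff]
  refine le_variation fun η hη y _ => ?_
  obtain ⟨x0, hx0⟩ : ∃ x0, x0 = c * T * ((t : ℝ) - s) / 2 := ⟨_, rfl⟩
  have hx00 : 0 < x0 := by
    rw [hx0]
    have : 0 < (t : ℝ) - s := by linarith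
    positivity
  have h1 := hg.eventually (eventually_ge_atTop (|y| / x0))
  rw [eventually_nhdsWithin_iff, Metric.eventually_nhds_iff] at h1
  obtain ⟨r0, hr0, h1⟩ := h1
  obtain ⟨η1, hη1, hmod⟩ := Metric.uniformContinuous_iff.1
    (CompactSpace.uniformContinuous_of_continuous f.continuous) r0 hr0
  obtain ⟨n, τ, k1, k2, k3, k4, k5⟩ := hL s t hst.le (min η (η1 / 2)) (lt_min hη (by positivity))
    x0 (by
      rw [hx0]
      have : 0 < c * T * ((t : ℝ) - s) := by
        have : 0 < (t : ℝ) - s := by linarith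
        positivity
      linarith)
  refine ⟨n, τ, ⟨k1, k2, k3, fun i hi => (k4 i hi).trans (min_le_left _ _)⟩, ?_⟩
  have h2 : ∀ i ∈ Finset.range n, |y| / x0 * psi (dist (f (τ i)) (f (τ (i + 1)))) ≤
      g (dist (f (τ i)) (f (τ (i + 1)))) := by
    intro i hi
    have hd0 : 0 ≤ dist (f (τ i)) (f (τ (i + 1))) := dist_nonneg
    rcases hd0.eq_or_lt with h0 | h0
    · rw [← h0, psi_zero, hg0, mul_zero]
    · have h3 : dist (f (τ i)) (f (τ (i + 1))) < r0 := by
        refine hmod ?_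
        have h5 : (τ i : ℝ) ≤ τ (i + 1) := k1 (Nat.le_succ i)
        rw [Subtype.dist_eq, Real.dist_eq, abs_sub_comm, abs_of_nonneg (by linarith)]
        have := (k4 i (Finset.mem_range.1 hi)).trans (min_le_right _ _)
        linarith
      have h4 := h1 (y := dist (f (τ i)) (f (τ (i + 1)))) (by
        rw [Real.dist_eq, sub_zero, abs_of_pos h0]; exact h3) h0
      rwa [le_div_iff₀ (psi_pos h0)] at h4
  have h3 := Finset.sum_le_sum h2
  rw [← Finset.mul_sum] at h3
  have h4 : |y| / x0 * x0 ≤ |y| / x0 * ∑ i ∈ Finset.range n, psi (dist (f (τ i)) (f (τ (i + 1)))) :=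
    mul_le_mul_of_nonneg_left k5 (by positivity)
  rw [div_mul_cancel₀ _ hx00.ne'] at h4
  exact (le_abs_self y).trans (h4.trans h3)

/-- gauges much smaller than `ψ` -/
theorem var_zero {f : C(unitInterval, ℂ)} {T C : ℝ} (hT : 0 < T) (hC : 0 < C)
    (hU : UPF f T C) {g : ℝ → ℝ} (hg0 : g 0 = 0)
    (hg : Tendsto (fun x => g x / psi x) (𝓝[>] 0) (𝓝 0)) (s t : unitInterval) :
    variation g f s t = 0 := by
  have h0 : variation g f s t ≤ ENNReal.ofReal 0 := by
    refine variation_le fun ε hε => ?_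
    obtain ⟨e, he⟩ : ∃ e, e = ε / (C * T + 1) := ⟨_, rfl⟩
    have he0 : 0 < e := by rw [he]; positivity
    have h1 := hg.eventually (gt_mem_nhds he0)
    rw [eventually_nhdsWithin_iff, Metric.eventually_nhds_iff] at h1
    obtain ⟨r0, hr0, h1⟩ := h1
    obtain ⟨η1, hη1, hmod⟩ := Metric.uniformContinuous_iff.1
      (CompactSpace.uniformContinuous_of_continuous f.continuous) r0 hr0
    obtain ⟨η, hη, h2⟩ := hU 1 one_pos
    refine ⟨min η (η1 / 2), lt_min hη (by positivity), fun n τ hτ => ?_⟩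
    obtain ⟨g1, g2, g3, g4⟩ := hτ
    have h3 := h2 n τ (fun i => τ (i + 1))
      (fun i hi => ⟨g1 (Nat.le_succ i), (g4 i hi).trans (min_le_left _ _)⟩)
      (fun i j hij _ => g1 hij)
    rw [Finset.sum_range_sub (fun i => (τ i : ℝ)), g3, g2] at h3
    have h4 : ∀ i ∈ Finset.range n, g (dist (f (τ i)) (f (τ (i + 1)))) ≤
        e * psi (dist (f (τ i)) (f (τ (i + 1)))) := by
      intro i hi
      have hd0 : 0 ≤ dist (f (τ i)) (f (τ (i + 1))) := dist_nonneg
      rcases hd0.eq_or_lt with h0 | h0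
      · rw [← h0, psi_zero, hg0, mul_zero]
      · have h3 : dist (f (τ i)) (f (τ (i + 1))) < r0 := by
          refine hmod ?_
          have h5 : (τ i : ℝ) ≤ τ (i + 1) := g1 (Nat.le_succ i)
          rw [Subtype.dist_eq, Real.dist_eq, abs_sub_comm, abs_of_nonneg (by linarith)]
          have := (g4 i (Finset.mem_range.1 hi)).trans (min_le_right _ _)
          linarith
        have h4 := h1 (y := dist (f (τ i)) (f (τ (i + 1)))) (by
          rw [Real.dist_eq, sub_zero, abs_of_pos h0]; exact h3) h0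
        rw [div_lt_iff₀ (psi_pos h0)] at h4
        exact h4.le
    have h5 := Finset.sum_le_sum h4
    rw [← Finset.mul_sum] at h5
    have hd1 : (t : ℝ) - s ≤ 1 := by have := t.2.2; have := s.2.1; linarith
    have h6 : C * T * ((t : ℝ) - s) ≤ C * T := by
      have : 0 < C * T := by positivity
      nlinarith
    have h7 : e * ∑ i ∈ Finset.range n, psi (dist (f (τ i)) (f (τ (i + 1)))) ≤ e * (C * T + 1) :=
      mul_le_mul_of_nonneg_left (by linarith) he0.le
    have h8 : e * (C * T + 1) = ε := by rw [he]; field_simp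
    linarith
  rw [ENNReal.ofReal_zero] at h0
  exact le_antisymm h0 zero_le

/-- `x ^ (7/4)` is much larger than `ψ` -/
theorem tendsto_74 : Tendsto (fun x : ℝ => x ^ (7/4 : ℝ) / psi x) (𝓝[>] 0) atTop := by
  have h1 : Tendsto (fun x : ℝ => Real.log (Real.log (1 / x)) ^ (3/4 : ℝ)) (𝓝[>] 0) atTop := by
    have h0 : Tendsto (fun x : ℝ => 1 / x) (𝓝[>] 0) atTop := by
      simpa only [one_div] using tendsto_inv_nhdsGT_zero (𝕜 := ℝ)
    exact (tendsto_rpow_atTop (by norm_num)).comp (Real.tendsto_log_atTop.comp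
      (Real.tendsto_log_atTop.comp h0))
  refine tendsto_atTop_mono' _ ?_ h1
  have h2 : ∀ᶠ x : ℝ in 𝓝[>] 0, x < Real.exp (-Real.exp 1) :=
    mem_nhdsWithin_of_mem_nhds (gt_mem_nhds (Real.exp_pos _))
  filter_upwards [h2, self_mem_nhdsWithin] with x hx hx0
  have hx0' : 0 < x := hx0
  obtain ⟨-, -, a3⟩ := ll_eq hx0' hx.le
  have h3 := ll_pos x
  have h4 : x ^ (7/4 : ℝ) / psi x = ll x ^ (3/4 : ℝ) := by
    unfold psi
    have : x ^ (7/4 : ℝ) ≠ 0 := (Real.rpow_pos_of_pos hx0' _).ne'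
    have : ll x ^ (3/4 : ℝ) ≠ 0 := (Real.rpow_pos_of_pos h3 _).ne'
    field_simp
  rw [h4, a3]

end Pool.Agent.X145.EV
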